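import Pool.Agent.Lib.UCX.Run

/-!
# UCX: an (ambiguous) one-kind push-pop grammar for the unary composite numbers
-/

set_option autoImplicit false

namespace Pool.Agent.Lib.UCX

/-- variables -/
inductive V0 : Type where
  | S | T | W | A
  deriving Fintype

/-- index symbols -/
inductive I0 : Type where
  | e | f | g | h
  deriving Fintype

open V0 I0 in
/-- the productions `A → B_f` of `G0` -/
def push0 : Set (V0 × V0 × I0) := {(S, T, e), (T, T, f), (T, W, g), (W, W, g), (W, A, h)}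

open V0 I0 in
/-- the productions `A_f → α` of `G0` -/
def pop0 : Set (V0 × I0 × List (Sym V0)) :=
  {(A, h, [Sym.var A, Sym.var A]), (A, g, [Sym.var A, Sym.var A]), (A, g, [Sym.var A]),
    (A, f, [Sym.zero, Sym.var A]), (A, e, [Sym.zero, Sym.zero])}

/-- The grammar `S → T_e`, `T → T_f`, `T → W_g`, `W → W_g`, `W → A_h`, `A_h → AA`, `A_g → AA`, `A_g → A`,
`A_f → 0A`, `A_e → 00`. -/
def G0 : Grammar where
  V := V0
  I := I0
  finV := inferInstance
  finI := inferInstance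
  start := V0.S
  ctx := ∅
  push := push0
  pop := pop0
  finCtx := Set.finite_empty
  finPush := by simp [push0]
  finPop := by simp [pop0]

private theorem push_iff (a b : V0) (x : I0) : (a, b, x) ∈ push0 ↔
    (a = V0.S ∧ b = V0.T ∧ x = I0.e) ∨ (a = V0.T ∧ b = V0.T ∧ x = I0.f) ∨ (a = V0.T ∧ b = V0.W ∧ x = I0.g) ∨
    (a = V0.W ∧ b = V0.W ∧ x = I0.g) ∨ (a = V0.W ∧ b = V0.A ∧ x = I0.h) := by
  simp [push0]

private theorem push_W (b : V0) (x : I0) (h : (V0.W, b, x) ∈ push0) :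
    (b = V0.W ∧ x = I0.g) ∨ (b = V0.A ∧ x = I0.h) := by
  simpa using (push_iff _ _ _).1 h

private theorem push_T (b : V0) (x : I0) (h : (V0.T, b, x) ∈ push0) :
    (b = V0.T ∧ x = I0.f) ∨ (b = V0.W ∧ x = I0.g) := by
  simpa using (push_iff _ _ _).1 h

private theorem push_S (b : V0) (x : I0) (h : (V0.S, b, x) ∈ push0) : b = V0.T ∧ x = I0.e := by
  simpa using (push_iff _ _ _).1 h

private theorem pop_iff (a : V0) (x : I0) (α : List (Sym V0)) : (a, x, α) ∈ pop0 ↔
    (a = V0.A ∧ x = I0.h ∧ α = [Sym.var V0.A, Sym.var V0.A]) ∨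
    (a = V0.A ∧ x = I0.g ∧ α = [Sym.var V0.A, Sym.var V0.A]) ∨
    (a = V0.A ∧ x = I0.g ∧ α = [Sym.var V0.A]) ∨
    (a = V0.A ∧ x = I0.f ∧ α = [Sym.zero, Sym.var V0.A]) ∨
    (a = V0.A ∧ x = I0.e ∧ α = [Sym.zero, Sym.zero]) := by
  simp [pop0]

private def Gen (w : List (Item G0)) (n : ℕ) : Prop := ∃ l, Run G0 l w n

private theorem gen_nil {n : ℕ} (h : Gen [] n) : n = 0 := by
  obtain ⟨l, h⟩ := h
  cases h
  rfl

private theorem gen_zero {w : List (Item G0)} {n : ℕ} (h : Gen (none :: w) n) : ∃ m, n = m + 1 ∧ Gen w m := by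
  obtain ⟨l, h⟩ := h
  cases h with
  | zero h => exact ⟨_, rfl, _, h⟩

private theorem gen_pop {i : I0} {σ : List I0} {w : List (Item G0)} {n : ℕ}
    (h : Gen (some (V0.A, i :: σ) :: w) n) : ∃ α, (V0.A, i, α) ∈ G0.pop ∧ Gen (inst (G := G0) σ α ++ w) n := by
  obtain ⟨l, h⟩ := h
  cases h with
  | ctx hm _ => exact absurd hm (Set.notMem_empty _)
  | push hm _ =>
    have := (push_iff _ _ _).1 hm
    simp at this
  | pop hm h => exact ⟨_, hm, _, h⟩

private theorem gen_append {w1 w2 : List (Item G0)} {n1 n2 : ℕ} (h1 : Gen w1 n1) (h2 : Gen w2 n2) :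
    Gen (w1 ++ w2) (n1 + n2) := by
  obtain ⟨l1, h1⟩ := h1
  obtain ⟨l2, h2⟩ := h2
  exact ⟨_, run_append h1 h2⟩

private theorem gen_split (w1 w2 : List (Item G0)) {n : ℕ} (h : Gen (w1 ++ w2) n) :
    ∃ n1 n2, n = n1 + n2 ∧ Gen w1 n1 ∧ Gen w2 n2 := by
  obtain ⟨l, h⟩ := h
  obtain ⟨l1, l2, n1, n2, _, h2, h3, h4⟩ := run_split w1 w2 h
  exact ⟨n1, n2, h2, ⟨_, h3⟩, ⟨_, h4⟩⟩

private theorem pop_h (α : List (Sym V0)) : (V0.A, I0.h, α) ∈ pop0 ↔ α = [Sym.var V0.A, Sym.var V0.A] := by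
  simp [pop0]

private theorem pop_g (α : List (Sym V0)) : (V0.A, I0.g, α) ∈ pop0 ↔
    α = [Sym.var V0.A, Sym.var V0.A] ∨ α = [Sym.var V0.A] := by
  simp [pop0]

private theorem pop_f (α : List (Sym V0)) : (V0.A, I0.f, α) ∈ pop0 ↔ α = [Sym.zero, Sym.var V0.A] := by
  simp [pop0]

private theorem pop_e (α : List (Sym V0)) : (V0.A, I0.e, α) ∈ pop0 ↔ α = [Sym.zero, Sym.zero] := by
  simp [pop0]

private theorem A_low (i n : ℕ) : Gen [some (V0.A, List.replicate i I0.f ++ [I0.e])] n ↔ n = i + 2 := by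
  induction i generalizing n with
  | zero =>
    constructor
    · intro h
      obtain ⟨α, h1, h2⟩ := gen_pop h
      replace h1 := (pop_e _).1 h1
      subst h1
      obtain ⟨m, rfl, h3⟩ := gen_zero h2
      obtain ⟨m, rfl, h4⟩ := gen_zero h3
      rw [gen_nil h4]
    · rintro rfl
      exact ⟨_, Run.pop (G := G0) ((pop_e _).2 rfl) (Run.zero (Run.zero Run.nil))⟩
  | succ i ih =>
    constructor
    · intro h
      obtain ⟨α, h1, h2⟩ := gen_pop (i := I0.f) (σ := List.replicate i I0.f ++ [I0.e]) h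
      replace h1 := (pop_f _).1 h1
      subst h1
      obtain ⟨m, rfl, h3⟩ := gen_zero h2
      rw [(ih m).1 h3, Nat.add_right_comm]
    · rintro rfl
      obtain ⟨l, hl⟩ := (ih (i + 2)).2 rfl
      have : i + 1 + 2 = (i + 2) + 1 := by ring
      rw [this]
      exact ⟨_, Run.pop (G := G0) (σ := List.replicate i I0.f ++ [I0.e]) ((pop_f _).2 rfl) (Run.zero hl)⟩

private theorem A_all (i k n : ℕ) :
    Gen [some (V0.A, List.replicate k I0.g ++ (List.replicate i I0.f ++ [I0.e]))] n ↔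
      ∃ c, 1 ≤ c ∧ c ≤ 2 ^ k ∧ n = c * (i + 2) := by
  induction k generalizing n with
  | zero =>
    show Gen [some (V0.A, List.replicate i I0.f ++ [I0.e])] n ↔ _
    rw [A_low]
    constructor
    · rintro rfl
      exact ⟨1, le_rfl, le_rfl, (one_mul _).symm⟩
    · rintro ⟨c, h1, h2, rfl⟩
      have : c = 1 := by
        rw [pow_zero] at h2
        omega
      rw [this, one_mul]
  | succ k ih =>
    constructor
    · intro h
      obtain ⟨α, h1, h2⟩ := gen_pop (i := I0.g)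
        (σ := List.replicate k I0.g ++ (List.replicate i I0.f ++ [I0.e])) h
      replace h1 := (pop_g _).1 h1
      rcases h1 with rfl | rfl
      · obtain ⟨n1, n2, rfl, h3, h4⟩ := gen_split
          [some (V0.A, List.replicate k I0.g ++ (List.replicate i I0.f ++ [I0.e]))]
          [some (V0.A, List.replicate k I0.g ++ (List.replicate i I0.f ++ [I0.e]))] h2
        obtain ⟨c1, h5, h6, rfl⟩ := (ih _).1 h3
        obtain ⟨c2, h7, h8, rfl⟩ := (ih _).1 h4
        refine ⟨c1 + c2, by omega, ?_, by ring⟩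
        rw [pow_succ]
        omega
      · obtain ⟨c, h3, h4, rfl⟩ := (ih _).1 h2
        refine ⟨c, h3, ?_, rfl⟩
        rw [pow_succ]
        omega
    · rintro ⟨c, h1, h2, rfl⟩
      rw [pow_succ] at h2
      by_cases hc : c ≤ 2 ^ k
      · obtain ⟨l, hl⟩ := (ih _).2 ⟨c, h1, hc, rfl⟩
        exact ⟨_, Run.pop (G := G0) (σ := List.replicate k I0.g ++ (List.replicate i I0.f ++ [I0.e]))
          ((pop_g _).2 (Or.inr rfl)) hl⟩
      · have h3 := (ih _).2 ⟨2 ^ k, Nat.one_le_two_pow, le_rfl, rfl⟩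
        have h4 := (ih _).2 ⟨c - 2 ^ k, by omega, by omega, rfl⟩
        obtain ⟨l, hl⟩ := gen_append h3 h4
        have h5 : c * (i + 2) = 2 ^ k * (i + 2) + (c - 2 ^ k) * (i + 2) := by
          rw [← Nat.add_mul]
          congr 1
          omega
        rw [h5]
        exact ⟨_, Run.pop (G := G0) (σ := List.replicate k I0.g ++ (List.replicate i I0.f ++ [I0.e]))
          ((pop_g _).2 (Or.inl rfl)) hl⟩

private theorem W_sound (i : ℕ) (l : List (Prd G0)) : ∀ (k n : ℕ),
    Run G0 l [some (V0.W, List.replicate k I0.g ++ (List.replicate i I0.f ++ [I0.e]))] n →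
      ∃ c, 2 ≤ c ∧ n = c * (i + 2) := by
  induction l with
  | nil =>
    intro k n h
    cases h
  | cons p l ih =>
    intro k n h
    generalize hτ : List.replicate k I0.g ++ (List.replicate i I0.f ++ [I0.e]) = τ at h
    cases h with
    | ctx hm _ => exact absurd hm (Set.notMem_empty _)
    | pop hm _ =>
      have := (pop_iff _ _ _).1 hm
      simp at this
    | @push _ _ _ _ B x _ hm h =>
      subst hτ
      rcases push_W B x hm with ⟨rfl, rfl⟩ | ⟨rfl, rfl⟩
      · exact ih (k + 1) n h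
      · obtain ⟨α, h1, h2⟩ := gen_pop ⟨_, h⟩
        replace h1 := (pop_h _).1 h1
        subst h1
        obtain ⟨n1, n2, rfl, h3, h4⟩ := gen_split
          [some (V0.A, List.replicate k I0.g ++ (List.replicate i I0.f ++ [I0.e]))]
          [some (V0.A, List.replicate k I0.g ++ (List.replicate i I0.f ++ [I0.e]))] h2
        obtain ⟨c1, h5, h6, rfl⟩ := (A_all _ _ _).1 h3
        obtain ⟨c2, h7, h8, rfl⟩ := (A_all _ _ _).1 h4
        exact ⟨c1 + c2, by omega, by ring⟩

private theorem T_sound (l : List (Prd G0)) : ∀ (i n : ℕ),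
    Run G0 l [some (V0.T, List.replicate i I0.f ++ [I0.e])] n → ∃ c a, 2 ≤ c ∧ 2 ≤ a ∧ n = c * a := by
  induction l with
  | nil =>
    intro k n h
    cases h
  | cons p l ih =>
    intro i n h
    generalize hτ : List.replicate i I0.f ++ [I0.e] = τ at h
    cases h with
    | ctx hm _ => exact absurd hm (Set.notMem_empty _)
    | pop hm _ =>
      have := (pop_iff _ _ _).1 hm
      simp at this
    | @push _ _ _ _ B x _ hm h =>
      subst hτ
      rcases push_T B x hm with ⟨rfl, rfl⟩ | ⟨rfl, rfl⟩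
      · exact ih (i + 1) n h
      · obtain ⟨c, hc, rfl⟩ := W_sound i l 1 n h
        exact ⟨c, i + 2, hc, by omega, rfl⟩

private theorem W_down (τ : List I0) (n k d : ℕ) (h : Gen [some (V0.W, List.replicate (k + d) I0.g ++ τ)] n) :
    Gen [some (V0.W, List.replicate k I0.g ++ τ)] n := by
  induction d with
  | zero => exact h
  | succ d ih =>
    apply ih
    obtain ⟨l, hl⟩ := h
    exact ⟨_, Run.push (G := G0) (B := V0.W) (f := I0.g) ((push_iff _ _ _).2 (by simp)) hl⟩

private theorem T_down (n i : ℕ) (h : Gen [some (V0.T, List.replicate i I0.f ++ [I0.e])] n) :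
    Gen [some (V0.T, [I0.e])] n := by
  induction i with
  | zero => exact h
  | succ i ih =>
    apply ih
    obtain ⟨l, hl⟩ := h
    exact ⟨_, Run.push (G := G0) (B := V0.T) (f := I0.f) ((push_iff _ _ _).2 (by simp)) hl⟩

theorem lang_G0 : Lang G0 = {n | Composite n} := by
  ext n
  constructor
  · rintro ⟨l, h⟩
    have h1 : ∃ c a, 2 ≤ c ∧ 2 ≤ a ∧ n = c * a := by
      cases h with
      | ctx hm _ => exact absurd hm (Set.notMem_empty _)
      | @push _ _ _ _ B x _ hm h =>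
        obtain ⟨rfl, rfl⟩ := push_S B x hm
        exact T_sound _ 0 n h
    obtain ⟨c, a, h2, h3, rfl⟩ := h1
    refine ⟨by nlinarith, Nat.not_prime_mul (by omega) (by omega)⟩
  · rintro ⟨h1, h2⟩
    obtain ⟨m, ⟨c, rfl⟩, h4, h5⟩ := Nat.exists_dvd_of_not_prime2 h1 h2
    have hc : 2 ≤ c := by
      by_contra hc
      have : c = 0 ∨ c = 1 := by omega
      rcases this with rfl | rfl
      · omega
      · omega
    obtain ⟨i, rfl⟩ := Nat.exists_eq_add_of_le' h4
    have h6 : ∀ j, 1 ≤ j → j ≤ c → j ≤ 2 ^ c := fun j _ hj => hj.trans Nat.lt_two_pow_self.le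
    have h7 := (A_all i c _).2 ⟨1, le_rfl, h6 1 le_rfl (by omega), rfl⟩
    have h8 := (A_all i c _).2 ⟨c - 1, by omega, h6 _ (by omega) (by omega), rfl⟩
    obtain ⟨l, hl⟩ := gen_append h7 h8
    have h9 : 1 * (i + 2) + (c - 1) * (i + 2) = (i + 2) * c := by
      rw [← Nat.add_mul, mul_comm]
      congr 1
      omega
    rw [h9] at hl
    have h10 : Gen [some (V0.W, List.replicate (1 + (c - 1)) I0.g ++ (List.replicate i I0.f ++ [I0.e]))]
        ((i + 2) * c) := by
      have : 1 + (c - 1) = c := by omega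
      rw [this]
      exact ⟨_, Run.push (G := G0) (B := V0.A) (f := I0.h) ((push_iff _ _ _).2 (by simp))
        (Run.pop (G := G0) ((pop_h _).2 rfl) hl)⟩
    obtain ⟨l', hl'⟩ := W_down _ _ _ _ h10
    have h11 : Gen [some (V0.T, List.replicate i I0.f ++ [I0.e])] ((i + 2) * c) :=
      ⟨_, Run.push (G := G0) (B := V0.W) (f := I0.g) ((push_iff _ _ _).2 (by simp)) hl'⟩
    obtain ⟨l'', hl''⟩ := T_down _ _ h11
    exact ⟨_, Run.push (G := G0) (B := V0.T) (f := I0.e) ((push_iff V0.S _ _).2 (by simp)) hl''⟩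

private theorem pop_sym (a : V0) (x : I0) (α : List (Sym V0)) (h : (a, x, α) ∈ pop0) :
    a = V0.A ∧ ∀ s ∈ α, s = Sym.zero ∨ s = Sym.var V0.A := by
  rcases (pop_iff _ _ _).1 h with ⟨h1, _, h2⟩ | ⟨h1, _, h2⟩ | ⟨h1, _, h2⟩ | ⟨h1, _, h2⟩ | ⟨h1, _, h2⟩ <;>
  · subst h1 h2
    simp

theorem oneKind_G0 : ∃ P : Set G0.V, OneKind G0 P := by
  refine ⟨fun x => x = V0.A, ⟨?_, ?_, ?_⟩⟩
  · intro B α h
    exact absurd h (Set.notMem_empty _)
  · intro B C x h hA
    have hA' : B = V0.A := hA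
    subst hA'
    have := (push_iff _ _ _).1 h
    simp at this
  · intro B x α h
    obtain ⟨h1, h2⟩ := pop_sym _ _ _ h
    exact ⟨h1, V0.A, rfl, h2⟩

end Pool.Agent.Lib.UCX
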