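import Pool.Agent.Lib.UCX.Pth

/-!
# UCX, row ApA: a cycle with all b = 1 gives a shift

PROOF IN WORDS. `cyc_set`: `w ≠ []`, `Path S q w q`, all `b = 1` on `w`, so `bm w = 1` (induction). For `l ∈ X S q`:
`w ++ l ∈ X S q` (`path_append`), with value `val l + val w` (`val_append`). `κ := val w`; if `κ = 0` then
`val (w ++ l) = val l`, so `w ++ l = l` by `inj_on` (`X S q` is nonempty, being infinite), so `w = []`
(length). `dir_eq`: `val` is a bijection from `X S q` onto its image (`inj_on`): `Equiv.Set.imageOfInjOn`,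
`Equiv.tsum_eq`.
-/

set_option autoImplicit false

open Filter Topology Finset

namespace Pool.Agent.Lib.UCX

private theorem bm_one (S : Sys) : ∀ w : List S.E, (∀ e ∈ w, S.b e = 1) → bm S w = 1
  | [], _ => rfl
  | e :: w, h => by
    show S.b e * bm S w = 1
    rw [h e (List.mem_cons_self), bm_one S w fun x hx => h x (List.mem_cons_of_mem _ hx)]

theorem cyc_set (S : Sys) (hu : Uniq S) {q : S.Q} (hq : Live S q) (hi : (X S q).Infinite)
    (hc : Cyc S q) : ∃ κ : ℕ, 1 ≤ κ ∧ ∀ n ∈ val S '' X S q, n + κ ∈ val S '' X S q := by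
  obtain ⟨w, hw, hp, hb⟩ := hc
  have hv : ∀ l : List S.E, val S (w ++ l) = val S l + val S w := fun l => by
    rw [val_append, bm_one S w hb, one_mul]
  have hX : ∀ l ∈ X S q, w ++ l ∈ X S q := fun l hl => path_append hl hp
  refine ⟨val S w, ?_, ?_⟩
  · by_contra h
    have h0 : val S w = 0 := by omega
    obtain ⟨l, hl⟩ := hi.nonempty
    have h1 := inj_on S hu hq hi (hX l hl) hl (by rw [hv, h0, add_zero])
    have h2 := congrArg List.length h1
    rw [List.length_append] at h2
    exact hw (List.length_eq_zero_iff.1 (by omega))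
  · rintro n ⟨l, hl, rfl⟩
    exact ⟨w ++ l, hX l hl, hv l⟩

theorem dir_eq (S : Sys) (hu : Uniq S) {q : S.Q} (hq : Live S q) (hi : (X S q).Infinite) (s : ℝ) :
    Dir S q s = DirN (val S '' X S q) s := by
  unfold Dir DirN
  exact (tsum_image (fun n : ℕ => ((n + 1 : ℕ) : ℂ) ^ (-(s : ℂ))) (inj_on S hu hq hi)).symm

end Pool.Agent.Lib.UCX
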