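import Pool.Agent.Lib.UCX.Zet

/-!
# UCX, row ApB: sets with a shift

PROOF IN WORDS. If `T` is empty take `H = 0`. For a residue `r < κ` which occurs in `T` let `m_r` be the least element of
`T` congruent to `r` (`Nat.find`); then the elements of `T` congruent to `r` are exactly the `κ k + m_r`, `k ≥ 0`
(induction with `h`). So `T` is in bijection with `R × ℕ`, `R` the finite set of the occurring residues, by
`(r, k) ↦ κ k + m_r`, and for `s > 1` (summable, `summable_cpow` with `Subtype.val`) `DirN T s` is the finite sum over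
`r ∈ R` of `∑' k, (κ k + m_r + 1)^(-s)`. By `diff_analytic` with `v = id`, `b = κ`, `d = m_r` this is
`κ^(-s) ∑' k, (k + 1)^(-s) + h s`; multiply by `s - 1` and use `zeta_mul`.
-/

set_option autoImplicit false

open Filter Topology Finset

namespace Pool.Agent.Lib.UCX

private theorem shift_many {T : Set ℕ} {κ : ℕ} (h : ∀ n ∈ T, n + κ ∈ T) {m : ℕ} (hm : m ∈ T)
    (k : ℕ) : κ * k + m ∈ T := by
  induction k with
  | zero => simpa using hm
  | succ k ih =>
    have := h _ ih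
    rwa [show κ * k + m + κ = κ * (k + 1) + m by ring] at this

theorem dirN_shift (T : Set ℕ) (κ : ℕ) (hκ : 1 ≤ κ) (h : ∀ n ∈ T, n + κ ∈ T) :
    ∃ H : ℂ → ℂ, AnalyticAt ℂ H 1 ∧ ∀ s : ℝ, 1 < s → ((s : ℂ) - 1) * DirN T s = H s := by
  classical
  let R : Finset ℕ := (Finset.range κ).filter (fun r => ∃ n, n ∈ T ∧ n % κ = r)
  have hR : ∀ r : R, ∃ n, n ∈ T ∧ n % κ = (r : ℕ) := fun r => (Finset.mem_filter.1 r.2).2
  let m : R → ℕ := fun r => Nat.find (hR r)
  have hmT : ∀ r, m r ∈ T := fun r => (Nat.find_spec (hR r)).1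
  have hmr : ∀ r : R, m r % κ = (r : ℕ) := fun r => (Nat.find_spec (hR r)).2
  have hmin : ∀ (r : R) (n : ℕ), n ∈ T → n % κ = (r : ℕ) → m r ≤ n :=
    fun r n hn hr => Nat.find_min' (hR r) ⟨hn, hr⟩
  let f : R × ℕ → T := fun p => ⟨κ * p.2 + m p.1, shift_many h (hmT p.1) p.2⟩
  have hf : Function.Bijective f := by
    constructor
    · rintro ⟨r, k⟩ ⟨r', k'⟩ he
      have he' : κ * k + m r = κ * k' + m r' := congrArg Subtype.val he
      have h1 : (κ * k + m r) % κ = (κ * k' + m r') % κ := by rw [he']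
      rw [Nat.mul_add_mod, Nat.mul_add_mod, hmr, hmr] at h1
      have h2 : r = r' := Subtype.ext h1
      subst h2
      have h3 : κ * k = κ * k' := by omega
      have h4 : k = k' := Nat.eq_of_mul_eq_mul_left hκ h3
      rw [h4]
    · rintro ⟨n, hn⟩
      have hr : n % κ ∈ R := Finset.mem_filter.2
        ⟨Finset.mem_range.2 (Nat.mod_lt _ hκ), n, hn, rfl⟩
      have h1 : m ⟨n % κ, hr⟩ ≤ n := hmin ⟨n % κ, hr⟩ n hn rfl
      have h2 : m ⟨n % κ, hr⟩ % κ = n % κ := hmr ⟨n % κ, hr⟩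
      have h3 : κ ∣ n - m ⟨n % κ, hr⟩ := (Nat.modEq_iff_dvd' h1).1 h2
      obtain ⟨k, hk⟩ := h3
      refine ⟨(⟨n % κ, hr⟩, k), Subtype.ext ?_⟩
      change κ * k + m ⟨n % κ, hr⟩ = n
      omega
  have hval : Function.Injective fun p : R × ℕ => κ * p.2 + m p.1 :=
    Subtype.val_injective.comp hf.1
  obtain ⟨Z, hZ, hZs⟩ := zeta_mul
  choose g hg hgs using fun r : R => diff_analytic (id : ℕ → ℕ) Function.injective_id κ (m r) hκ
  have hκ0 : (κ : ℂ) ≠ 0 := by
    have : κ ≠ 0 := by omega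
    exact_mod_cast this
  have hpow : AnalyticAt ℂ (fun s : ℂ => (κ : ℂ) ^ (-s)) 1 := by
    have h1 : (fun s : ℂ => (κ : ℂ) ^ (-s)) = fun s : ℂ => Complex.exp (Complex.log (κ : ℂ) * -s) := by
      funext s
      rw [Complex.cpow_def_of_ne_zero hκ0]
    rw [h1]
    have h2 : Differentiable ℂ fun s : ℂ => Complex.exp (Complex.log (κ : ℂ) * -s) := by
      fun_prop
    exact h2.analyticAt 1
  refine ⟨fun s => ∑ r : R, ((κ : ℂ) ^ (-s) * Z s + (s - 1) * g r s), ?_, ?_⟩
  · have h3 : AnalyticAt ℂ (fun s : ℂ => s - 1) 1 := analyticAt_id.sub analyticAt_const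
    exact Finset.analyticAt_fun_sum _ fun r _ => (hpow.mul hZ).add (h3.mul (hg r))
  · intro s hs
    have hsum := summable_cpow (fun p : R × ℕ => κ * p.2 + m p.1) hval hs
    have h4 : DirN T s = ∑' p : R × ℕ, ((κ * p.2 + m p.1 + 1 : ℕ) : ℂ) ^ (-(s : ℂ)) := by
      unfold DirN
      exact ((Equiv.ofBijective f hf).tsum_eq
        (fun n : T => (((n : ℕ) + 1 : ℕ) : ℂ) ^ (-(s : ℂ)))).symm
    rw [h4, hsum.tsum_prod, tsum_fintype, Finset.mul_sum]
    refine Finset.sum_congr rfl fun r _ => ?_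
    have h5 := hgs r s hs
    simp only [id] at h5
    rw [h5, mul_add, ← hZs s hs]
    ring

end Pool.Agent.Lib.UCX
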