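import Pool.Agent.Lib.UCX.Defs

/-!
# UCX, row Det: the determinant does not vanish (only Mathlib)

PROOF IN WORDS. `D s = det (1 - ∑ e, b_e^(-s) c_e)` is a polynomial in the entire functions `b_e^(-s)` (`b_e ≥ 1`), so it
is differentiable on `ℂ` (`Matrix.det_apply`, finite sums and products; `DifferentiableAt.const_cpow`), hence analytic
everywhere. As `s → ∞` along the reals `b_e^(-s) → 0` if `b_e ≥ 2`, and it is `1` if `b_e = 1`; so
`D s → det (1 - N)`, `N` the nilpotent sum over `b_e = 1` (continuity of `det`: `Continuous.matrix_det`). `1 - N` is a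
unit (`IsNilpotent.isUnit_one_sub`), so this limit is not zero, so `D` is not identically zero. If `D s = 0` for real
`s` arbitrarily near `1` on the right, then `D` vanishes identically (`AnalyticAt.eventually_eq_zero_or_eventually_ne_zero`
at `1`: otherwise `D ≠ 0` on a punctured neighbourhood, which is the claim; in the other case
`AnalyticOnNhd.eqOn_zero_of_preconnected_of_eventuallyEq_zero`).
-/

set_option autoImplicit false

open Filter Topology Finset

namespace Pool.Agent.Lib.UCX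

private theorem det_diff {Q E : Type} [Fintype Q] [DecidableEq Q] [Fintype E] (b : E → ℕ)
    (hb : ∀ e, 1 ≤ b e) (c : E → Matrix Q Q ℂ) :
    Differentiable ℂ (fun s : ℂ => (1 - ∑ e, ((b e : ℂ) ^ (-s)) • c e : Matrix Q Q ℂ).det) := by
  have hentry : ∀ i j, Differentiable ℂ
      (fun s : ℂ => (1 - ∑ e, ((b e : ℂ) ^ (-s)) • c e : Matrix Q Q ℂ) i j) := by
    intro i j
    have h1 : (fun s : ℂ => (1 - ∑ e, ((b e : ℂ) ^ (-s)) • c e : Matrix Q Q ℂ) i j) =
        fun s : ℂ => (1 : Matrix Q Q ℂ) i j - ∑ e, ((b e : ℂ) ^ (-s)) * c e i j := by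
      funext s
      simp [Matrix.sub_apply, Matrix.sum_apply, Matrix.smul_apply]
    rw [h1]
    refine (differentiable_const _).sub (Differentiable.fun_sum fun e _ => ?_)
    refine Differentiable.mul_const ?_ _
    refine Differentiable.const_cpow differentiable_id.neg (Or.inl ?_)
    have := hb e
    exact_mod_cast (by omega : b e ≠ 0)
  simp only [Matrix.det_apply]
  refine Differentiable.fun_sum fun σ _ => ?_
  refine Differentiable.const_smul ?_ _
  exact Differentiable.fun_finsetProd fun i _ => hentry _ _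

private theorem det_lim {Q E : Type} [Fintype Q] [DecidableEq Q] [Fintype E] (b : E → ℕ)
    (hb : ∀ e, 1 ≤ b e) (c : E → Matrix Q Q ℂ) :
    Tendsto (fun s : ℝ => (1 - ∑ e, ((b e : ℂ) ^ (-(s : ℂ))) • c e : Matrix Q Q ℂ).det) atTop
      (𝓝 (1 - ∑ e ∈ univ.filter (fun e => b e = 1), c e : Matrix Q Q ℂ).det) := by
  have hcont : Continuous (fun A : Matrix Q Q ℂ => A.det) := Continuous.matrix_det continuous_id
  have h1 : Tendsto (fun s : ℝ => (1 - ∑ e, ((b e : ℂ) ^ (-(s : ℂ))) • c e : Matrix Q Q ℂ)) atTop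
      (𝓝 (1 - ∑ e, (if b e = 1 then c e else 0) : Matrix Q Q ℂ)) := by
    refine tendsto_const_nhds.sub (tendsto_finsetSum _ fun e _ => ?_)
    by_cases h : b e = 1
    · rw [if_pos h]
      have h2 : (fun s : ℝ => ((b e : ℂ) ^ (-(s : ℂ))) • c e) = fun _ => c e := by
        funext s
        rw [h, Nat.cast_one, Complex.one_cpow, one_smul]
      rw [h2]
      exact tendsto_const_nhds
    · rw [if_neg h]
      have hb1 : 1 < b e := by
        have := hb e
        omega
      have h3 : Tendsto (fun s : ℝ => ((b e : ℂ) ^ (-(s : ℂ)))) atTop (𝓝 0) := by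
        rw [tendsto_zero_iff_norm_tendsto_zero]
        have h4 : (fun s : ℝ => ‖((b e : ℂ) ^ (-(s : ℂ)))‖) = fun s : ℝ => (b e : ℝ) ^ (-s) := by
          funext s
          rw [Complex.norm_natCast_cpow_of_pos (by omega)]
          simp
        rw [h4]
        exact (tendsto_rpow_atBot_of_base_gt_one (b e : ℝ) (by exact_mod_cast hb1)).comp
          tendsto_neg_atTop_atBot
      have h5 := h3.smul_const (c e)
      rwa [zero_smul] at h5
  rw [Finset.sum_filter]
  exact (hcont.tendsto _).comp h1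

theorem det_ne {Q E : Type} [Fintype Q] [DecidableEq Q] [Fintype E] (b : E → ℕ)
    (hb : ∀ e, 1 ≤ b e) (c : E → Matrix Q Q ℂ)
    (hnil : IsNilpotent (∑ e ∈ univ.filter (fun e => b e = 1), c e)) :
    AnalyticAt ℂ (fun s : ℂ => (1 - ∑ e, ((b e : ℂ) ^ (-s)) • c e : Matrix Q Q ℂ).det) 1 ∧
      ∀ᶠ s : ℝ in 𝓝[>] (1 : ℝ), (1 - ∑ e, ((b e : ℂ) ^ (-(s : ℂ))) • c e : Matrix Q Q ℂ).det ≠ 0 := by
  have hd := det_diff b hb c
  refine ⟨hd.analyticAt 1, ?_⟩
  have hA : AnalyticOnNhd ℂ
      (fun s : ℂ => (1 - ∑ e, ((b e : ℂ) ^ (-s)) • c e : Matrix Q Q ℂ).det) Set.univ :=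
    fun z _ => hd.analyticAt z
  have hne : (1 - ∑ e ∈ univ.filter (fun e => b e = 1), c e : Matrix Q Q ℂ).det ≠ 0 :=
    ((Matrix.isUnit_iff_isUnit_det _).1 hnil.isUnit_one_sub).ne_zero
  rcases (hd.analyticAt 1).eventually_eq_zero_or_eventually_ne_zero with h | h
  · exfalso
    have h0 : Set.EqOn (fun s : ℂ => (1 - ∑ e, ((b e : ℂ) ^ (-s)) • c e : Matrix Q Q ℂ).det) 0
        Set.univ :=
      hA.eqOn_zero_of_preconnected_of_eventuallyEq_zero isPreconnected_univ (Set.mem_univ _) h
    have h1 : (fun s : ℝ => (1 - ∑ e, ((b e : ℂ) ^ (-(s : ℂ))) • c e : Matrix Q Q ℂ).det) =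
        fun _ => (0 : ℂ) := by
      funext s
      exact h0 (Set.mem_univ (s : ℂ))
    have h2 := det_lim b hb c
    rw [h1] at h2
    exact hne (tendsto_nhds_unique h2 tendsto_const_nhds)
  · have h3 : Tendsto (fun s : ℝ => (s : ℂ)) (𝓝[>] (1 : ℝ)) (𝓝[≠] (1 : ℂ)) := by
      rw [tendsto_nhdsWithin_iff]
      constructor
      · have h4 : Tendsto (fun s : ℝ => (s : ℂ)) (𝓝 (1 : ℝ)) (𝓝 ((1 : ℝ) : ℂ)) :=
          Complex.continuous_ofReal.tendsto 1
        rw [Complex.ofReal_one] at h4
        exact h4.mono_left nhdsWithin_le_nhds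
      · filter_upwards [self_mem_nhdsWithin] with s hs
        intro h5
        have h7 : (s : ℂ) = 1 := Set.mem_singleton_iff.1 h5
        have h6 : s = 1 := by exact_mod_cast h7
        rw [h6] at hs
        exact lt_irrefl _ (Set.mem_Ioi.1 hs)
    exact h3.eventually h

end Pool.Agent.Lib.UCX
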