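import Pool.Agent.Lib.UCX.Defs

/-!
# UCX, row Mer: no meromorphic function behaves like this (only Mathlib)

PROOF IN WORDS. `D` is not zero near `1`, `P > 0`, so `K = D P` is not zero on the right of `1`; so
(`AnalyticAt.exists_eventuallyEq_pow_smul_nonzero_iff`) `D z = (z - 1)^a g z`, `K z = (z - 1)^c h z` near `1`, `g`, `h`
analytic, `g 1 ≠ 0 ≠ h 1`. For real `s > 1` near `1`: `(s - 1)^a g(s) P(s) = (s - 1)^c h(s)`. If `c ≥ a` then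
`|P s| = (s - 1)^(c - a) |h/g|` is bounded, against `P → ∞`. If `c < a` then `|(s - 1) P s| ≥ |h/g|` (for `s - 1 ≤ 1`),
which does not tend to `0`.
-/

set_option autoImplicit false

open Filter Topology Finset

namespace Pool.Agent.Lib.UCX

theorem contra (P : ℝ → ℝ) (h1 : Tendsto P (𝓝[>] 1) atTop)
    (h2 : Tendsto (fun s : ℝ => (s - 1) * P s) (𝓝[>] 1) (𝓝 0)) (D K : ℂ → ℂ)
    (hD : AnalyticAt ℂ D 1) (hK : AnalyticAt ℂ K 1)
    (hne : ∀ᶠ s : ℝ in 𝓝[>] (1 : ℝ), D s ≠ 0)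
    (h : ∀ᶠ s : ℝ in 𝓝[>] (1 : ℝ), D s * (P s : ℂ) = K s) : False := by
  have hcast : Tendsto (fun s : ℝ => (s : ℂ)) (𝓝[>] (1 : ℝ)) (𝓝 (1 : ℂ)) :=
    (Complex.continuous_ofReal.tendsto' 1 1 (by simp)).mono_left nhdsWithin_le_nhds
  have hpos : ∀ᶠ s : ℝ in 𝓝[>] (1 : ℝ), 0 < P s := h1.eventually_gt_atTop 0
  have hgt : ∀ᶠ s : ℝ in 𝓝[>] (1 : ℝ), 1 < s := eventually_mem_nhdsWithin
  have hlt : ∀ᶠ s : ℝ in 𝓝[>] (1 : ℝ), s < 2 :=
    nhdsWithin_le_nhds (Iio_mem_nhds (by norm_num : (1 : ℝ) < 2))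
  -- neither of the functions is zero near `1`
  have hD0 : ¬ ∀ᶠ z in 𝓝 (1 : ℂ), D z = 0 := by
    intro h0
    have h3 := hcast.eventually h0
    obtain ⟨s, hs1, hs2⟩ := (h3.and hne).exists
    exact hs2 hs1
  have hK0 : ¬ ∀ᶠ z in 𝓝 (1 : ℂ), K z = 0 := by
    intro h0
    have h3 := hcast.eventually h0
    obtain ⟨s, ⟨⟨hs1, hs2⟩, hs3⟩, hs4⟩ := (((h3.and hne).and h).and hpos).exists
    rw [hs1] at hs3
    rcases mul_eq_zero.1 hs3 with h4 | h4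
    · exact hs2 h4
    · rw [Complex.ofReal_eq_zero] at h4
      exact hs4.ne' h4
  obtain ⟨a, g, hg, hg1, hDg⟩ := hD.exists_eventuallyEq_pow_smul_nonzero_iff.2 hD0
  obtain ⟨c, k, hk, hk1, hKk⟩ := hK.exists_eventuallyEq_pow_smul_nonzero_iff.2 hK0
  have hgl : Tendsto (fun s : ℝ => ‖g s‖) (𝓝[>] (1 : ℝ)) (𝓝 ‖g 1‖) :=
    (hg.continuousAt.tendsto.comp hcast).norm
  have hkl : Tendsto (fun s : ℝ => ‖k s‖) (𝓝[>] (1 : ℝ)) (𝓝 ‖k 1‖) :=
    (hk.continuousAt.tendsto.comp hcast).norm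
  have hg0 : 0 < ‖g 1‖ := norm_pos_iff.2 hg1
  have hk0 : 0 < ‖k 1‖ := norm_pos_iff.2 hk1
  -- the absolute values
  have key : ∀ᶠ s : ℝ in 𝓝[>] (1 : ℝ), (s - 1) ^ a * ‖g s‖ * P s = (s - 1) ^ c * ‖k s‖ := by
    filter_upwards [hcast.eventually hDg, hcast.eventually hKk, h, hpos, hgt] with s e1 e2 e3 e4 e5
    rw [e1, e2] at e3
    have e6 := congrArg norm e3
    have e7 : ‖(s : ℂ) - 1‖ = s - 1 := by
      have : (s : ℂ) - 1 = ((s - 1 : ℝ) : ℂ) := by push_cast; ring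
      rw [this, Complex.norm_real, Real.norm_of_nonneg (by linarith)]
    rw [norm_mul, norm_smul, norm_smul, norm_pow, norm_pow, e7, Complex.norm_real,
      Real.norm_of_nonneg e4.le] at e6
    exact e6
  rcases le_or_gt a c with hac | hac
  · -- `P` would be bounded
    have h3 : Tendsto (fun s : ℝ => ‖g s‖ * P s) (𝓝[>] (1 : ℝ)) atTop :=
      hgl.pos_mul_atTop hg0 h1
    have h4 : ∀ᶠ s : ℝ in 𝓝[>] (1 : ℝ), ‖k s‖ < ‖k 1‖ + 1 :=
      hkl.eventually_lt_const (by linarith)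
    obtain ⟨s, ⟨⟨⟨⟨e1, e2⟩, e3⟩, e4⟩, e5⟩⟩ :=
      ((((key.and hgt).and hlt).and h4).and (h3.eventually_gt_atTop (‖k 1‖ + 1))).exists
    obtain ⟨n, rfl⟩ := Nat.exists_eq_add_of_le hac
    have hx : (0 : ℝ) < s - 1 := by linarith
    have hxa : (0 : ℝ) < (s - 1) ^ a := pow_pos hx a
    have hxn : (s - 1) ^ n ≤ 1 := pow_le_one₀ hx.le (by linarith)
    rw [pow_add, mul_assoc, mul_assoc] at e1
    have e6 := mul_left_cancel₀ hxa.ne' e1
    have e7 : (s - 1) ^ n * ‖k s‖ ≤ 1 * ‖k s‖ := mul_le_mul_of_nonneg_right hxn (norm_nonneg _)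
    linarith
  · -- `(s - 1) P s` would not tend to zero
    obtain ⟨n, rfl⟩ := Nat.exists_eq_add_of_lt hac
    have h3 : Tendsto (fun s : ℝ => (s - 1) ^ n * (‖g s‖ * ((s - 1) * P s))) (𝓝[>] (1 : ℝ))
        (𝓝 ((1 - 1) ^ n * (‖g 1‖ * 0))) := by
      refine Tendsto.mul ?_ (hgl.mul h2)
      exact ((tendsto_id.mono_left nhdsWithin_le_nhds).sub_const (1 : ℝ)).pow n
    have h4 : (fun s : ℝ => (s - 1) ^ n * (‖g s‖ * ((s - 1) * P s))) =ᶠ[𝓝[>] (1 : ℝ)]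
        fun s : ℝ => ‖k s‖ := by
      filter_upwards [key, hgt] with s e1 e2
      have hx : (0 : ℝ) < s - 1 := by linarith
      have hxc : (0 : ℝ) < (s - 1) ^ c := pow_pos hx c
      apply mul_left_cancel₀ hxc.ne'
      rw [← e1]
      ring
    have h5 := tendsto_nhds_unique (h3.congr' h4) hkl
    rw [mul_zero, mul_zero] at h5
    exact hk0.ne h5

end Pool.Agent.Lib.UCX
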