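import Pool.Agent.Lib.UCX.Defs

/-!
# UCX, row Nil: nilpotent matrices (only Mathlib)

PROOF IN WORDS. If `(N ^ k) i j ≠ 0`, there is a walk `i = x_0, ..., x_k = j` with `N x_t x_(t+1) ≠ 0` (induction on
`k`, `pow_succ'`, `Matrix.mul_apply`, a nonzero term of the sum). For `k = card Q` two of the `k + 1` vertices are equal
(pigeonhole), which gives `TransGen` from a vertex to itself. Alternatively: the relation is well founded on a finite
type, take a rank function `r : Q → ℕ` with `N i j ≠ 0 → r j < r i` (`r i` = number of the `j` with `TransGen i j`),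
and show `(N ^ k) i j ≠ 0 → r j + k ≤ r i` by induction, so `N ^ (card Q + 1) = 0`.
-/

set_option autoImplicit false

open Filter Topology Finset

namespace Pool.Agent.Lib.UCX

theorem nilp {Q : Type} [Fintype Q] [DecidableEq Q] (N : Matrix Q Q ℂ)
    (hN : ∀ q, ¬ Relation.TransGen (fun i j => N i j ≠ 0) q q) : IsNilpotent N := by
  classical
  set r : Q → ℕ := fun i => (univ.filter fun j => Relation.TransGen (fun i j => N i j ≠ 0) i j).card with hr
  have hlt : ∀ i j, N i j ≠ 0 → r j < r i := by
    intro i j hij
    refine Finset.card_lt_card ⟨fun k hk => ?_, fun hsub => ?_⟩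
    · rw [mem_filter] at hk ⊢
      exact ⟨mem_univ _, Relation.TransGen.head hij hk.2⟩
    · have h1 : j ∈ univ.filter fun k => Relation.TransGen (fun i j => N i j ≠ 0) i k :=
        mem_filter.mpr ⟨mem_univ _, Relation.TransGen.single hij⟩
      exact hN j (mem_filter.mp (hsub h1)).2
  have key : ∀ (k : ℕ) (i j : Q), (N ^ k) i j ≠ 0 → r j + k ≤ r i := by
    intro k
    induction k with
    | zero =>
      intro i j h
      rw [pow_zero, Matrix.one_apply] at h
      split_ifs at h with hij
      · rw [hij, add_zero]
      · exact absurd rfl h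
    | succ k ih =>
      intro i j h
      rw [pow_succ', Matrix.mul_apply] at h
      obtain ⟨l, -, hl⟩ := exists_ne_zero_of_sum_ne_zero h
      have h1 := hlt i l (left_ne_zero_of_mul hl)
      have h2 := ih l j (right_ne_zero_of_mul hl)
      omega
  refine ⟨Fintype.card Q + 1, ?_⟩
  ext i j
  by_contra h
  have h1 := key (Fintype.card Q + 1) i j h
  have h2 : r i ≤ Fintype.card Q := card_le_univ _
  omega

end Pool.Agent.Lib.UCX
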