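import Pool.Agent.Lib.UCX.Defs

/-!
# UCX, row Prm: the prime series near 1 (only Mathlib)

PROOF IN WORDS. (1) `PS s → ∞`: the sum of the `1/(p+1)` diverges (`Nat.Primes.not_summable_one_div`, `1/(p+1) ≥ 1/(2p)`),
so for every `B` a finite partial sum is `> B`; finite sums are continuous in `s`, so `PS s > B` near `1`
(`PS s` is summable for `s > 1`: `Nat.Primes.summable_rpow`; `sum_le_tsum`). (2) `0 ≤ PS s ≤ ∑ p^(-s) ≤ ∑ -log(1 - p^(-s)) = log ζ(s)`
(`riemannZeta_eulerProduct_exp_log` or `riemannZeta_eulerProduct_tprod`; or use directly the bound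
`∑_{p} p^(-s) ≤ log ζ(s)`), and `ζ(s) ≤ 1 + 1/(s-1) = s/(s-1)` (integral test, or `(s - 1) ζ(s) → 1`,
`riemannZeta_residue_one`), so `(s - 1) PS s ≤ (s - 1) log (2/(s - 1)) → 0` near `1`. Any other proof is fine.
-/

set_option autoImplicit false

open Filter Topology Finset

namespace Pool.Agent.Lib.UCX

private lemma prm_le (p : Nat.Primes) {s : ℝ} (hs : 0 ≤ s) :
    ((p : ℝ) + 1) ^ (-s) ≤ (p : ℝ) ^ (-s) := by
  have hp : (0 : ℝ) < p := by exact_mod_cast p.2.pos
  exact Real.rpow_le_rpow_of_nonpos hp (by linarith) (by linarith)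

private lemma prm_summable {s : ℝ} (hs : 1 < s) :
    Summable fun p : Nat.Primes => ((p : ℝ) + 1) ^ (-s) := by
  refine Summable.of_nonneg_of_le (fun p => by positivity) (fun p => prm_le p (by linarith))
    (Nat.Primes.summable_rpow.2 (by linarith))

private lemma prm_not_summable : ¬ Summable fun p : Nat.Primes => ((p : ℝ) + 1) ^ (-(1 : ℝ)) := by
  intro h
  refine Nat.Primes.not_summable_one_div ?_
  refine Summable.of_nonneg_of_le (fun p => by positivity) (fun p => ?_) (h.mul_left 2)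
  have hp : (1 : ℝ) ≤ p := by exact_mod_cast p.2.one_lt.le
  rw [Real.rpow_neg_one, ← div_eq_mul_inv, div_le_div_iff₀ (by linarith) (by linarith)]
  linarith

private lemma prm_exp_le {s : ℝ} (hs : 1 < s) :
    Real.exp (∑' p : Nat.Primes, (p : ℝ) ^ (-s)) ≤ ‖riemannZeta (s : ℂ)‖ := by
  have h1 := (riemannZeta_eulerProduct_hasProd (s := (s : ℂ)) (by simpa using hs))
  have h2 : Tendsto (fun u : Finset Nat.Primes => ∏ p ∈ u, ‖(1 - (p : ℂ) ^ (-(s : ℂ)))⁻¹‖) atTop
      (𝓝 ‖riemannZeta (s : ℂ)‖) := h1.norm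
  have h3 : Tendsto (fun u : Finset Nat.Primes => Real.exp (∑ p ∈ u, (p : ℝ) ^ (-s))) atTop
      (𝓝 (Real.exp (∑' p : Nat.Primes, (p : ℝ) ^ (-s)))) :=
    (Real.continuous_exp.tendsto _).comp
      (Nat.Primes.summable_rpow.2 (by linarith)).hasSum
  refine le_of_tendsto_of_tendsto' h3 h2 fun u => ?_
  rw [Real.exp_sum]
  refine Finset.prod_le_prod (fun p _ => (Real.exp_pos _).le) fun p _ => ?_
  have hp : (1 : ℝ) < p := by exact_mod_cast p.2.one_lt
  have hx : (p : ℝ) ^ (-s) < 1 := Real.rpow_lt_one_of_one_lt_of_neg hp (by linarith)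
  have he : (1 - (p : ℂ) ^ (-(s : ℂ)))⁻¹ = (((1 - (p : ℝ) ^ (-s))⁻¹ : ℝ) : ℂ) := by
    push_cast
    rw [Complex.ofReal_cpow (by linarith)]
    push_cast
    rfl
  rw [he, Complex.norm_real, Real.norm_of_nonneg (inv_nonneg.2 (by linarith))]
  rw [le_inv_comm₀ (Real.exp_pos _) (by linarith), ← Real.exp_neg]
  have := Real.add_one_le_exp (-(p : ℝ) ^ (-s))
  linarith

theorem prime_facts : Tendsto PS (𝓝[>] 1) atTop ∧
    Tendsto (fun s : ℝ => (s - 1) * PS s) (𝓝[>] 1) (𝓝 0) := by
  constructor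
  · rw [tendsto_atTop]
    intro B
    obtain ⟨u, hu⟩ : ∃ u : Finset Nat.Primes, B < ∑ p ∈ u, ((p : ℝ) + 1) ^ (-(1 : ℝ)) := by
      by_contra hcon
      push Not at hcon
      exact prm_not_summable (summable_of_sum_le (fun p => by positivity) hcon)
    have hc : Continuous fun s : ℝ => ∑ p ∈ u, ((p : ℝ) + 1) ^ (-s) := by
      refine continuous_finsetSum _ fun p _ => ?_
      exact Real.continuous_const_rpow (by positivity) |>.comp continuous_neg
    have h1 : ∀ᶠ s : ℝ in 𝓝[>] 1, B < ∑ p ∈ u, ((p : ℝ) + 1) ^ (-s) :=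
      nhdsWithin_le_nhds (hc.continuousAt.eventually (lt_mem_nhds hu))
    filter_upwards [h1, self_mem_nhdsWithin] with s hs hs1
    refine hs.le.trans ?_
    exact (prm_summable hs1).sum_le_tsum _ (fun p _ => by positivity)
  · have hres : Tendsto (fun s : ℝ => ‖((s : ℂ) - 1) * riemannZeta (s : ℂ)‖) (𝓝[>] 1) (𝓝 1) := by
      have h0 : Tendsto (fun s : ℝ => (s : ℂ)) (𝓝[>] 1) (𝓝[≠] 1) := by
        refine tendsto_nhdsWithin_iff.2 ⟨?_, ?_⟩
        · exact ((Complex.continuous_ofReal.tendsto 1).mono_left nhdsWithin_le_nhds)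
        · filter_upwards [self_mem_nhdsWithin] with s hs
          have : (1 : ℝ) < s := hs
          simp only [Set.mem_compl_iff, Set.mem_singleton_iff]
          exact_mod_cast this.ne'
      simpa using (riemannZeta_residue_one.comp h0).norm
    have h2 : ∀ᶠ s : ℝ in 𝓝[>] 1, ‖((s : ℂ) - 1) * riemannZeta (s : ℂ)‖ < 2 :=
      hres.eventually (gt_mem_nhds (by norm_num))
    have hg : Tendsto (fun s : ℝ => (s - 1) * Real.log 2 - (s - 1) * Real.log (s - 1)) (𝓝[>] 1)
        (𝓝 0) := by
      have hcont : Continuous fun s : ℝ => (s - 1) * Real.log 2 - (s - 1) * Real.log (s - 1) := by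
        refine Continuous.sub (by fun_prop) ?_
        exact Real.continuous_mul_log.comp (continuous_id.sub continuous_const)
      have := (hcont.tendsto 1).mono_left (nhdsWithin_le_nhds (s := Set.Ioi 1))
      simpa using this
    refine tendsto_of_tendsto_of_tendsto_of_le_of_le' tendsto_const_nhds hg ?_ ?_
    · filter_upwards [self_mem_nhdsWithin] with s hs
      have hs' : (1 : ℝ) < s := hs
      exact mul_nonneg (by linarith) (tsum_nonneg fun p => by positivity)
    · filter_upwards [h2, self_mem_nhdsWithin] with s h2s hs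
      have hs' : (1 : ℝ) < s := hs
      have hpos : 0 < s - 1 := by linarith
      have hle : PS s ≤ ∑' p : Nat.Primes, (p : ℝ) ^ (-s) :=
        Summable.tsum_le_tsum (fun p => prm_le p (by linarith)) (prm_summable hs')
          (Nat.Primes.summable_rpow.2 (by linarith))
      have hn : ‖((s : ℂ) - 1)‖ = s - 1 := by
        rw [show ((s : ℂ) - 1) = ((s - 1 : ℝ) : ℂ) by push_cast; rfl, Complex.norm_real,
          Real.norm_of_nonneg hpos.le]
      have hz : ‖riemannZeta (s : ℂ)‖ ≤ 2 / (s - 1) := by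
        rw [norm_mul, hn] at h2s
        rw [le_div_iff₀ hpos]
        linarith
      have hexp := prm_exp_le hs'
      have hlog : ∑' p : Nat.Primes, (p : ℝ) ^ (-s) ≤ Real.log (2 / (s - 1)) := by
        rw [Real.le_log_iff_exp_le (by positivity)]
        exact hexp.trans hz
      rw [Real.log_div (by norm_num) hpos.ne'] at hlog
      calc (s - 1) * PS s ≤ (s - 1) * (Real.log 2 - Real.log (s - 1)) :=
            mul_le_mul_of_nonneg_left (hle.trans hlog) hpos.le
        _ = _ := by ring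

end Pool.Agent.Lib.UCX
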