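import Pool.Agent.Lib.UCX.Defs

/-!
# UCX, row Slv: Cramer (only Mathlib)

PROOF IN WORDS. For `s > 1`, with `A = 1 - M s`, `x = (F · s)`: `(s - 1) • A.mulVec x = H · s`, so
`det A * ((s - 1) x_q) = ((s - 1) • (adjugate A * A).mulVec x) q = (adjugate A).mulVec (H · s) q`
(`Matrix.adjugate_mul`). `K s = ∑ j, adjugate (1 - M s) q j * H j s` is analytic at `1`: the entries of the adjugate are
polynomials in the entries (`Matrix.adjugate_apply`, `Matrix.det_apply`).
-/

set_option autoImplicit false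

open Filter Topology Finset

namespace Pool.Agent.Lib.UCX

private theorem adj_an {Q : Type} [Fintype Q] [DecidableEq Q] (M : ℂ → Matrix Q Q ℂ)
    (hM : ∀ i j, AnalyticAt ℂ (fun s => M s i j) 1) (q r : Q) :
    AnalyticAt ℂ (fun s => (1 - M s).adjugate q r) 1 := by
  have hA : ∀ k l, AnalyticAt ℂ (fun s => (1 - M s) k l) 1 := by
    intro k l
    have : (fun s => (1 - M s) k l) = fun s => (1 : Matrix Q Q ℂ) k l - M s k l := by
      funext s
      rfl
    rw [this]
    exact analyticAt_const.sub (hM k l)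
  have hU : ∀ k l, AnalyticAt ℂ (fun s => ((1 - M s).updateRow r (Pi.single q 1)) k l) 1 := by
    intro k l
    by_cases h : k = r
    · have : (fun s => ((1 - M s).updateRow r (Pi.single q 1)) k l) =
          fun _ => (Pi.single q (1 : ℂ) : Q → ℂ) l := by
        funext s
        rw [Matrix.updateRow_apply, if_pos h]
      rw [this]
      exact analyticAt_const
    · have : (fun s => ((1 - M s).updateRow r (Pi.single q 1)) k l) = fun s => (1 - M s) k l := by
        funext s
        rw [Matrix.updateRow_apply, if_neg h]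
      rw [this]
      exact hA k l
  have hd : (fun s => (1 - M s).adjugate q r) = fun s => ∑ σ : Equiv.Perm Q,
      ((Equiv.Perm.sign σ : ℤ) : ℂ) * ∏ i, ((1 - M s).updateRow r (Pi.single q 1)) (σ i) i := by
    funext s
    rw [Matrix.adjugate_apply, Matrix.det_apply']
  rw [hd]
  refine Finset.analyticAt_fun_sum _ fun σ _ => ?_
  exact analyticAt_const.mul (Finset.analyticAt_fun_prod _ fun i _ => hU _ _)

theorem solve {Q : Type} [Fintype Q] [DecidableEq Q] (M : ℂ → Matrix Q Q ℂ)
    (hM : ∀ i j, AnalyticAt ℂ (fun s => M s i j) 1) (F : Q → ℝ → ℂ) (H : Q → ℂ → ℂ)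
    (hH : ∀ q, AnalyticAt ℂ (H q) 1)
    (h : ∀ s : ℝ, 1 < s → ∀ q, ((s : ℂ) - 1) * (F q s - ∑ j, M s q j * F j s) = H q s) :
    ∀ q, ∃ K : ℂ → ℂ, AnalyticAt ℂ K 1 ∧ ∀ s : ℝ, 1 < s →
      (1 - M s).det * (((s : ℂ) - 1) * F q s) = K s := by
  intro q
  refine ⟨fun s => ∑ j, (1 - M s).adjugate q j * H j s, ?_, ?_⟩
  · exact Finset.analyticAt_fun_sum _ fun j _ => (adj_an M hM q j).mul (hH j)
  · intro s hs
    have h1 : ((s : ℂ) - 1) • (1 - M s).mulVec (fun j => F j s) = fun j => H j s := by
      funext j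
      rw [← h s hs j, Matrix.sub_mulVec, Matrix.one_mulVec]
      rfl
    have h2 : (1 - M s).adjugate.mulVec (fun j => H j s) =
        ((s : ℂ) - 1) • ((1 - M s).det • fun j => F j s) := by
      rw [← h1, Matrix.mulVec_smul, Matrix.mulVec_mulVec, Matrix.adjugate_mul, Matrix.smul_mulVec,
        Matrix.one_mulVec]
    have h3 := congrFun h2 q
    show _ = ∑ j, (1 - M s).adjugate q j * H j s
    have h4 : (1 - M s).adjugate.mulVec (fun j => H j s) q =
        ∑ j, (1 - M s).adjugate q j * H j s := rfl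
    rw [← h4, h3]
    show _ = ((s : ℂ) - 1) * ((1 - M s).det * F q s)
    ring

end Pool.Agent.Lib.UCX
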