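import Pool.Agent.Lib.UCX.Dif

/-!
# UCX, row Tot: all values together

PROOF IN WORDS. The map from the pairs `(q, l)`, `q ∈ fin`, `l ∈ X S q` to `Vals S`, `(q, l) ↦ val l`, is onto, and
injective: by `Uniq` `l = l'`, and the end of a path is determined by the path, except for `l = []`, where it is `q0`
(cases on the two paths). So `DirN (Vals S) s` is the sum over the sigma type, and for `s > 1` everything is summable
(`summable_cpow`), so it is the finite sum over `q ∈ fin` (`Summable.tsum_sigma`, `tsum_fintype`).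
-/

set_option autoImplicit false

open Filter Topology Finset

namespace Pool.Agent.Lib.UCX

private theorem path_end {S : Sys} {q q' q'' : S.Q} {l : List S.E} (h : Path S q l q')
    (h' : Path S q l q'') : q' = q'' := by
  cases h with
  | nil =>
    cases h' with
    | nil => rfl
  | cons e _ =>
    cases h' with
    | cons _ _ => rfl

open Classical in
theorem vals_sum (S : Sys) [Fintype S.Q] (hu : Uniq S) (s : ℝ) (hs : 1 < s) :
    DirN (Vals S) s = ∑ q ∈ univ.filter (fun q => q ∈ S.fin), Dir S q s := by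
  have hinj : Function.Injective
      (fun p : (Σ q : {q // q ∈ S.fin}, X S (q : S.Q)) => val S (p.2 : List S.E)) := by
    rintro ⟨⟨q, hq⟩, ⟨l, hl⟩⟩ ⟨⟨q', hq'⟩, ⟨l', hl'⟩⟩ h
    have h1 : l = l' := hu q q' l l' hq hq' hl hl' h
    subst h1
    have h2 : q = q' := path_end hl hl'
    subst h2
    rfl
  let f : (Σ q : {q // q ∈ S.fin}, X S (q : S.Q)) → Vals S :=
    fun p => ⟨val S (p.2 : List S.E), p.1.1, p.1.2, p.2.1, p.2.2, rfl⟩
  have hf : Function.Bijective f := by
    constructor
    · intro p p' h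
      exact hinj (congrArg Subtype.val h)
    · rintro ⟨n, q, hq, l, hl, rfl⟩
      exact ⟨⟨⟨q, hq⟩, ⟨l, hl⟩⟩, rfl⟩
  have hsum := summable_cpow
    (fun p : (Σ q : {q // q ∈ S.fin}, X S (q : S.Q)) => val S (p.2 : List S.E)) hinj hs
  have h1 : DirN (Vals S) s = ∑' p : (Σ q : {q // q ∈ S.fin}, X S (q : S.Q)),
      ((val S (p.2 : List S.E) + 1 : ℕ) : ℂ) ^ (-(s : ℂ)) := by
    unfold DirN
    exact ((Equiv.ofBijective f hf).tsum_eq
      (fun n : Vals S => (((n : ℕ) + 1 : ℕ) : ℂ) ^ (-(s : ℂ)))).symm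
  rw [h1, hsum.tsum_sigma, tsum_fintype,
    Finset.sum_subtype (univ.filter (fun q => q ∈ S.fin)) (p := fun q => q ∈ S.fin)
      (fun x => by simp)]
  rfl

end Pool.Agent.Lib.UCX
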