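import Pool.Agent.Lib.UCX.Defs

/-!
# UCX, row Run: concatenation of derivations

PROOF IN WORDS. `run_append`: induction on the first derivation (`List.append_assoc` in the steps). `run_split`: induction
on the derivation with `w1 ++ w2` generalised; if `w1 = []` take `l1 = []`, `n1 = 0` (`Run.nil`); otherwise the first item
of `w1` is the one treated by the step (for `ctx`, `pop` use the induction hypothesis for `inst σ α ++ w1'`).
`run_prefix`: induction on `h`; the first production of `l ++ t` is the same, so the steps agree (`cases` on the second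
derivation; for `nil`: a derivation from `[]` uses no production and gives `0`).
-/

set_option autoImplicit false

namespace Pool.Agent.Lib.UCX

theorem run_append {G : Grammar} {l1 l2 : List (Prd G)} {w1 w2 : List (Item G)} {n1 n2 : ℕ}
    (h1 : Run G l1 w1 n1) (h2 : Run G l2 w2 n2) : Run G (l1 ++ l2) (w1 ++ w2) (n1 + n2) := by
  induction h1 with
  | nil => rwa [List.nil_append, List.nil_append, zero_add]
  | zero _ ih =>
    rw [List.cons_append, Nat.add_right_comm]
    exact Run.zero ih
  | ctx hm _ ih =>
    rw [List.cons_append, List.cons_append]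
    rw [List.append_assoc] at ih
    exact Run.ctx hm ih
  | push hm _ ih =>
    rw [List.cons_append, List.cons_append]
    rw [List.cons_append] at ih
    exact Run.push hm ih
  | pop hm _ ih =>
    rw [List.cons_append, List.cons_append]
    rw [List.append_assoc] at ih
    exact Run.pop hm ih

theorem run_split {G : Grammar} {l : List (Prd G)} (w1 w2 : List (Item G)) {n : ℕ}
    (h : Run G l (w1 ++ w2) n) : ∃ l1 l2 n1 n2, l = l1 ++ l2 ∧ n = n1 + n2 ∧ Run G l1 w1 n1 ∧
      Run G l2 w2 n2 := by
  generalize hw : w1 ++ w2 = w at h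
  induction h generalizing w1 with
  | nil =>
    obtain ⟨e1, e2⟩ := List.append_eq_nil_iff.1 hw
    subst e1
    subst e2
    exact ⟨[], [], 0, 0, rfl, rfl, Run.nil, Run.nil⟩
  | @zero l w n h ih =>
    cases w1 with
    | nil =>
      rw [List.nil_append] at hw
      subst hw
      exact ⟨[], l, 0, n + 1, rfl, (zero_add _).symm, Run.nil, Run.zero h⟩
    | cons a w1 =>
      rw [List.cons_append] at hw
      obtain ⟨e1, e2⟩ := List.cons.inj hw
      subst e1
      obtain ⟨l1, l2, n1, n2, e3, e4, h3, h4⟩ := ih w1 e2
      exact ⟨l1, l2, n1 + 1, n2, e3, by omega, Run.zero h3, h4⟩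
  | @ctx l w n A α σ hm h ih =>
    cases w1 with
    | nil =>
      rw [List.nil_append] at hw
      subst hw
      exact ⟨[], _, 0, n, rfl, (zero_add _).symm, Run.nil, Run.ctx hm h⟩
    | cons a w1 =>
      rw [List.cons_append] at hw
      obtain ⟨e1, e2⟩ := List.cons.inj hw
      subst e1
      obtain ⟨l1, l2, n1, n2, e3, e4, h3, h4⟩ := ih (inst σ α ++ w1) (by rw [List.append_assoc, e2])
      exact ⟨Prd.ctx A α :: l1, l2, n1, n2, by rw [e3, List.cons_append], e4, Run.ctx hm h3, h4⟩
  | @push l w n A B f σ hm h ih =>
    cases w1 with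
    | nil =>
      rw [List.nil_append] at hw
      subst hw
      exact ⟨[], _, 0, n, rfl, (zero_add _).symm, Run.nil, Run.push hm h⟩
    | cons a w1 =>
      rw [List.cons_append] at hw
      obtain ⟨e1, e2⟩ := List.cons.inj hw
      subst e1
      obtain ⟨l1, l2, n1, n2, e3, e4, h3, h4⟩ := ih (some (B, f :: σ) :: w1) (by rw [List.cons_append, e2])
      exact ⟨Prd.push A B f :: l1, l2, n1, n2, by rw [e3, List.cons_append], e4, Run.push hm h3, h4⟩
  | @pop l w n A f α σ hm h ih =>
    cases w1 with
    | nil =>
      rw [List.nil_append] at hw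
      subst hw
      exact ⟨[], _, 0, n, rfl, (zero_add _).symm, Run.nil, Run.pop hm h⟩
    | cons a w1 =>
      rw [List.cons_append] at hw
      obtain ⟨e1, e2⟩ := List.cons.inj hw
      subst e1
      obtain ⟨l1, l2, n1, n2, e3, e4, h3, h4⟩ := ih (inst σ α ++ w1) (by rw [List.append_assoc, e2])
      exact ⟨Prd.pop A f α :: l1, l2, n1, n2, by rw [e3, List.cons_append], e4, Run.pop hm h3, h4⟩

theorem run_prefix {G : Grammar} {l t : List (Prd G)} {w : List (Item G)} {n m : ℕ}
    (h : Run G l w n) (h' : Run G (l ++ t) w m) : t = [] ∧ m = n := by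
  induction h generalizing m with
  | nil =>
    rw [List.nil_append] at h'
    cases h'
    exact ⟨rfl, rfl⟩
  | @zero l w n _ ih =>
    generalize hL : l ++ t = L at h'
    cases h' with
    | zero h'' =>
      subst hL
      obtain ⟨e1, e2⟩ := ih h''
      exact ⟨e1, by rw [e2]⟩
  | ctx hm _ ih =>
    rw [List.cons_append] at h'
    cases h' with
    | ctx hm' h'' => exact ih h''
  | push hm _ ih =>
    rw [List.cons_append] at h'
    cases h' with
    | push hm' h'' => exact ih h''
  | pop hm _ ih =>
    rw [List.cons_append] at h'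
    cases h' with
    | pop hm' h'' => exact ih h''

end Pool.Agent.Lib.UCX
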