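import Pool.Agent.Lib.UCX.Defs

/-!
# UCX, row Pth: paths and values

PROOF IN WORDS. `path_append`, `path_split`: induction on `w` (`Path.cons` fixes the last edge; `cases h`). `val_append`:
induction on `w`, `ring`. `path_end`: cases. `inj_on`: `Live` gives `w`, `q' ∈ fin`, `Path S q w q'`. For `l` in `X S q`:
`w ++ l` is in `X S q'` and has the value `bm w * val l + val w`. If `bm w = 0`, then all `w ++ l` have the same value, so
by `hu` they are equal, so all `l` are equal (`List.append_cancel_left`), and `X S q` is not infinite
(`Set.Subsingleton.finite`). So `bm w ≥ 1`, and `val l = val l'` gives `w ++ l = w ++ l'`.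
`edge_facts`: `Live S (src e)`: add `e` to the path (`path_append` with `[e]`). `X S (tgt e)` contains the image of
`X S (src e)` under the injective map `(e :: ·)`, so it is infinite. If `b e = 0` then all `e :: l` have the value `d e`,
against `inj_on` for `tgt e` and two different `l` (`Set.Infinite.nontrivial`).
-/

set_option autoImplicit false

open Filter Topology Finset

namespace Pool.Agent.Lib.UCX

theorem path_append {S : Sys} {q q' q'' : S.Q} {w l : List S.E} (h1 : Path S q l q')
    (h2 : Path S q' w q'') : Path S q (w ++ l) q'' := by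
  induction h2 with
  | nil => exact h1
  | cons e _ ih => exact Path.cons e ih

theorem path_split {S : Sys} {q q'' : S.Q} (w l : List S.E) (h : Path S q (w ++ l) q'') :
    ∃ q', Path S q l q' ∧ Path S q' w q'' := by
  induction w generalizing q'' with
  | nil => exact ⟨q'', h, Path.nil _⟩
  | cons e w ih =>
    rw [List.cons_append] at h
    cases h with
    | cons _ h' =>
      obtain ⟨q', h1, h2⟩ := ih h'
      exact ⟨q', h1, Path.cons e h2⟩

theorem path_end {S : Sys} {q q1 q2 : S.Q} {w : List S.E} (h1 : Path S q w q1)
    (h2 : Path S q w q2) : q1 = q2 := by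
  cases h1 with
  | nil => cases h2; rfl
  | cons e _ => cases h2; rfl

theorem val_append (S : Sys) (w l : List S.E) :
    val S (w ++ l) = bm S w * val S l + val S w := by
  induction w with
  | nil => simp [val, bm]
  | cons e w ih =>
    rw [List.cons_append]
    simp only [val, bm]
    rw [ih]
    ring

theorem inj_on (S : Sys) (hu : Uniq S) {q : S.Q} (hq : Live S q) (_hi : (X S q).Infinite) :
    Set.InjOn (val S) (X S q) := by
  obtain ⟨q', hq', w, hw⟩ := hq
  have h0 : ∀ l ∈ X S q, ∀ l' ∈ X S q, bm S w * val S l = bm S w * val S l' → l = l' := by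
    intro l hl l' hl' h
    have h1 : w ++ l = w ++ l' := by
      refine hu q' q' _ _ hq' hq' (path_append hl hw) (path_append hl' hw) ?_
      rw [val_append, val_append, h]
    exact List.append_cancel_left h1
  intro l hl l' hl' h
  exact h0 l hl l' hl' (by rw [h])

theorem edge_facts (S : Sys) (hu : Uniq S) (e : S.E) (hq : Live S (S.tgt e))
    (hi : (X S (S.src e)).Infinite) :
    1 ≤ S.b e ∧ Live S (S.src e) ∧ (X S (S.tgt e)).Infinite := by
  have h1 : Live S (S.src e) := by
    obtain ⟨q', hq', w, hw⟩ := hq
    exact ⟨q', hq', w ++ [e], path_append (Path.cons e (Path.nil _)) hw⟩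
  have hmem : ∀ l ∈ X S (S.src e), (e :: l) ∈ X S (S.tgt e) := fun l hl => Path.cons e hl
  have h2 : (X S (S.tgt e)).Infinite := by
    have h3 : ((fun l => e :: l) '' X S (S.src e)).Infinite :=
      hi.image (fun a _ b _ hab => List.cons_injective hab)
    refine h3.mono ?_
    rintro _ ⟨l, hl, rfl⟩
    exact hmem l hl
  refine ⟨?_, h1, h2⟩
  by_contra hb
  have hb0 : S.b e = 0 := by omega
  obtain ⟨l, hl, l', hl', hne⟩ := hi.nontrivial
  apply hne
  have h3 : e :: l = e :: l' := by
    refine inj_on S hu hq h2 (hmem l hl) (hmem l' hl') ?_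
    simp only [val, hb0, zero_mul]
  exact List.cons_injective h3

end Pool.Agent.Lib.UCX
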