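import Pool.Agent.Lib.UCX.Ins

/-!
# UCX, row Snd: from paths to derivations

PROOF IN WORDS. `sound1`: induction on `h`; a step `Run.ctx` (with `inst σ [var B] = [some (B, σ)]`) or `Run.push` in front of
the given derivation, then the induction hypothesis (`pp (e :: l) ++ m = pp l ++ (elb e :: m)`). `sound2`: induction on `h`
with `q` general; `unitX`: stack, `rr`, `eval` do not change; `stop`: `Run.pop` and `fill` with `ms = []` (`all_zero`);
`step`: `Run.pop` and `fill` with `ms = List.replicate (nvar α) (rr l, eval l)`. `inl` targets are excluded. `rr_nil`: `rr l`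
is empty iff the path ends in an `inl` state: induction.
-/

set_option autoImplicit false

namespace Pool.Agent.Lib.UCX

theorem sound1 {G : Grammar} {l : List (Edge G)} {q : G.V ⊕ (G.V × G.V)} (h : EPath G l q) :
    ∀ m n, Run G m [some (fst' q, stk l)] n → Run G (pp l ++ m) [some (G.start, [])] n := by
  induction h with
  | nil => intro m n hm; exact hm
  | @cons w e hv _ ih =>
    intro m n hm
    have key : Run G (elb e :: m) [some (fst' (esrc e), stk w)] n := by
      cases e with
      | unitY A B => exact Run.ctx hv hm
      | unitX A B C => exact Run.ctx hv hm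
      | pushY A B f => exact Run.push hv hm
      | stop A B f C α => exact Run.push hv.1 hm
      | step A B f C α C' => exact Run.push hv.1 hm
    have h1 := ih _ _ key
    have e1 : pp (e :: w) ++ m = pp w ++ (elb e :: m) := by
      show (pp w ++ [elb e]) ++ m = _
      rw [List.append_assoc]; rfl
    rw [e1]; exact h1

theorem sound2 {G : Grammar} {l : List (Edge G)} {q : G.V ⊕ (G.V × G.V)} (h : EPath G l q) :
    ∀ D B, q = Sum.inr (D, B) → Run G (rr l) [some (B, stk l)] (eval l) := by
  induction h with
  | nil => intro D B h; cases h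
  | @cons w e hv _ ih =>
    intro D B hq
    cases e with
    | unitY A B' => cases hq
    | pushY A B' f => cases hq
    | unitX A B' C =>
      obtain ⟨rfl, rfl⟩ : D = B' ∧ B = C := by cases hq; exact ⟨rfl, rfl⟩
      have h1 := ih A B rfl
      have e1 : eval (Edge.unitX A D B :: w) = eval w := by
        show 1 * eval w + 0 = eval w
        rw [one_mul, add_zero]
      rw [e1]; exact h1
    | stop A B' f C α =>
      obtain ⟨rfl, rfl⟩ : D = B' ∧ B = C := by cases hq; exact ⟨rfl, rfl⟩
      obtain ⟨-, hp, hn⟩ := hv
      have h1 := fill (G := G) (stk w) B α (fun s hs => Or.inl (all_zero α hn s hs)) [] (by simp [hn])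
        (by simp)
      have e1 : eval (Edge.stop A D f B α :: w) = (([] : List (List (Prd G) × ℕ)).map Prod.snd).sum + nzero α := by
        show 0 * eval w + nzero α = 0 + nzero α
        rw [zero_mul]
      rw [e1]
      refine Run.pop hp ?_
      rw [List.append_nil]; exact h1
    | step A B' f C α C' =>
      obtain ⟨rfl, rfl⟩ : D = B' ∧ B = C := by cases hq; exact ⟨rfl, rfl⟩
      obtain ⟨-, hp, -, hs⟩ := hv
      have h0 := ih A C' rfl
      have h1 := fill (G := G) (stk w) C' α hs (List.replicate (nvar α) (rr w, eval w)) (by simp)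
        (by
          intro x hx
          rw [(List.mem_replicate.1 hx).2]
          exact h0)
      have e1 : eval (Edge.step A D f B α C' :: w) =
          ((List.replicate (nvar α) (rr w, eval w)).map Prod.snd).sum + nzero α := by
        show nvar α * eval w + nzero α = _
        simp
      have e2 : rr (Edge.step A D f B α C' :: w) =
          Prd.pop B f α :: ((List.replicate (nvar α) (rr w, eval w)).map Prod.fst).flatten := by
        show Prd.pop B f α :: (List.replicate (nvar α) (rr w)).flatten = _
        simp
      rw [e1, e2]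
      refine Run.pop hp ?_
      rw [List.append_nil]; exact h1

theorem rr_nil {G : Grammar} {l : List (Edge G)} {q : G.V ⊕ (G.V × G.V)} (h : EPath G l q) :
    rr l = [] ↔ ∃ A, q = Sum.inl A := by
  induction h with
  | nil => exact ⟨fun _ => ⟨_, rfl⟩, fun _ => rfl⟩
  | @cons w e hv _ ih =>
    cases e with
    | unitY A B => exact ⟨fun _ => ⟨B, rfl⟩, fun _ => ih.2 ⟨A, rfl⟩⟩
    | pushY A B f => exact ⟨fun _ => ⟨B, rfl⟩, fun _ => ih.2 ⟨A, rfl⟩⟩
    | unitX A B C =>
      refine ⟨fun h => ?_, fun h => ?_⟩
      · obtain ⟨A', hA'⟩ := ih.1 h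
        cases hA'
      · obtain ⟨A', hA'⟩ := h
        cases hA'
    | stop A B f C α =>
      refine ⟨fun h => ?_, fun h => ?_⟩
      · cases h
      · obtain ⟨A', hA'⟩ := h
        cases hA'
    | step A B f C α C' =>
      refine ⟨fun h => ?_, fun h => ?_⟩
      · cases h
      · obtain ⟨A', hA'⟩ := h
        cases hA'

end Pool.Agent.Lib.UCX
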