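import Pool.Agent.Lib.UCX.Swp
import Pool.Agent.Lib.UCX.Snd

/-!
# UCX, row Cmp: from derivations to paths

PROOF IN WORDS. `comp2`: induction on `l` (`B`, `m`, `n`, `D` general). `l = []`: the stack is empty and `B ∈ P`, so no
production applies (`hk`). `unitY A D :: t`: the stack is that of `t`; the induction hypothesis gives `l''` ending in
`inr (A, B)`; take `Edge.unitX A D B :: l''`. `pushY A D f :: t`: the stack is `f :: stk t`; as `B ∈ P` the derivation starts
with a production `(B, f, α)`; `hk.pop` gives `C ∈ P` with `α` of kind `C`; `unfill` gives `ms`. If `nvar α = 0`: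
`n = nzero α`, take `Edge.stop A D f B α :: t`. Otherwise `ms` has a first element `(m1, n1)`, all second components are
equal to `n1` (if `nvar α ≥ 2` by `same`), so `n = nvar α * n1 + nzero α`; the induction hypothesis for `t`, `C`, `m1`, with
`ctx_down`, gives `l''` ending in `inr (A, C)` with `eval l'' = n1`; take `Edge.step A D f B α C :: l''`. The other edges do
not end in `inl`. `comp1`: strong induction on the length of `m`, by cases on the derivation. If `A ∈ P` the step is `pop`
and `comp2` applies with `D = B = A`, the context being `g m = pp l ++ m`, `β = 1`, `δ = 0` (`sound1`; `fst' (inl A) = A`). If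
`A ∉ P` the step is `ctx` with `α = [var B]` (use `Edge.unitY A B :: l`) or `push` (use `Edge.pushY A B f :: l`), and the
rest of the derivation is shorter.
-/

set_option autoImplicit false

namespace Pool.Agent.Lib.UCX

theorem comp2 {G : Grammar} {P : Set G.V} (hk : OneKind G P) (hu : Unambiguous G)
    {l : List (Edge G)} {D : G.V} (h : EPath G l (Sum.inl D)) {B : G.V} (hB : B ∈ P)
    (hc : Ctx G B (stk l)) {m : List (Prd G)} {n : ℕ} (hr : Run G m [some (B, stk l)] n) :
    ∃ l', EPath G l' (Sum.inr (D, B)) ∧ eval l' = n := by
  induction l generalizing D B m n with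
  | nil =>
    exfalso
    have hr' : Run G m [some (B, [])] n := hr
    cases hr' with
    | ctx h1 h2 => exact (hk.ctx _ _ h1).1 hB
    | push h1 h2 => exact hk.push _ _ _ h1 hB
  | cons e t ih =>
    generalize hq : (Sum.inl D : G.V ⊕ (G.V × G.V)) = q at h
    cases h with
    | cons _ hval hpath =>
      cases e with
      | unitY A D' =>
        have hD : D = D' := Sum.inl.inj hq
        subst hD
        obtain ⟨l'', h1, h2⟩ := ih (D := A) hpath hB hc hr
        refine ⟨Edge.unitX A D B :: l'', EPath.cons (Edge.unitX A D B) hval h1, ?_⟩
        show 1 * eval l'' + 0 = n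
        rw [h2]
        omega
      | unitX A D' C => exact absurd hq (by simp [etgt])
      | pushY A D' f =>
        have hD : D = D' := Sum.inl.inj hq
        subst hD
        have hr' : Run G m [some (B, f :: stk t)] n := hr
        have hc' : Ctx G B (f :: stk t) := hc
        cases hr' with
        | ctx h1 h2 => exact absurd hB (hk.ctx _ _ h1).1
        | push h1 h2 => exact absurd hB (hk.push _ _ _ h1)
        | @pop m' _ _ _ _ α _ hpop hrun =>
          obtain ⟨-, C, hC, hα⟩ := hk.pop _ _ _ hpop
          rw [List.append_nil] at hrun
          obtain ⟨ms, hlen, hms, hm, hn⟩ := unfill (stk t) C α hα hrun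
          by_cases h0 : nvar α = 0
          · have hms0 : ms = [] := List.length_eq_zero_iff.1 (by rw [hlen, h0])
            refine ⟨Edge.stop A D f B α :: t, EPath.cons (Edge.stop A D f B α) ⟨hval, hpop, h0⟩ hpath, ?_⟩
            show 0 * eval t + nzero α = n
            rw [hn, hms0]
            simp
          · cases ms with
            | nil => exact absurd hlen.symm h0
            | cons x ms' =>
              have hall : ∀ y ∈ x :: ms', y.2 = x.2 := by
                intro y hy
                by_cases h2 : 2 ≤ nvar α
                · exact same hu hpop hα h2 hc' (hms y hy) (hms x List.mem_cons_self)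
                · have h3 : (x :: ms').length = 1 := by rw [hlen]; omega
                  have h4 : ms' = [] := by
                    rw [List.length_cons] at h3
                    exact List.length_eq_zero_iff.1 (by omega)
                  rw [h4, List.mem_singleton] at hy
                  rw [hy]
              have hsum : ((x :: ms').map Prod.snd).sum = nvar α * x.2 := by
                have h3 : (x :: ms').map Prod.snd = List.replicate (x :: ms').length x.2 := by
                  rw [List.eq_replicate_iff]
                  refine ⟨by rw [List.length_map], ?_⟩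
                  intro b hb
                  obtain ⟨y, hy, rfl⟩ := List.mem_map.1 hb
                  exact hall y hy
                rw [h3, hlen, List.sum_replicate, smul_eq_mul]
              obtain ⟨l'', h1, h2⟩ := ih (D := A) hpath hC (ctx_down hpop hα (by omega) hc')
                (hms x List.mem_cons_self)
              refine ⟨Edge.step A D f B α C :: l'',
                EPath.cons (Edge.step A D f B α C) ⟨hval, hpop, by omega, hα⟩ h1, ?_⟩
              show nvar α * eval l'' + nzero α = n
              rw [h2, hn, hsum]
      | stop A D' f C α => exact absurd hq (by simp [etgt])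
      | step A D' f C α C' => exact absurd hq (by simp [etgt])

theorem comp1 {G : Grammar} {P : Set G.V} (hk : OneKind G P) (hu : Unambiguous G)
    {l : List (Edge G)} {A : G.V} (h : EPath G l (Sum.inl A)) {m : List (Prd G)} {n : ℕ}
    (hr : Run G m [some (A, stk l)] n) :
    ∃ B ∈ P, ∃ l', EPath G l' (Sum.inr (B, B)) ∧ eval l' = n := by
  induction m generalizing l A with
  | nil =>
    exfalso
    generalize stk l = τ at hr
    cases hr
  | cons p m' ih =>
    by_cases hA : A ∈ P
    · refine ⟨A, hA, comp2 hk hu h hA ⟨fun m => pp l ++ m, 1, 0, List.append_right_injective _, ?_⟩ hr⟩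
      intro m0 n0 h0
      rw [one_mul, add_zero]
      exact sound1 h m0 n0 h0
    · generalize hτ : stk l = τ at hr
      cases hr with
      | @ctx _ _ _ _ α _ h1 h2 =>
        obtain ⟨-, B, hα⟩ := hk.ctx _ _ h1
        subst hα
        have h3 : EPath G (Edge.unitY A B :: l) (Sum.inl B) := EPath.cons (Edge.unitY A B) h1 h
        refine ih h3 ?_
        show Run G m' [some (B, stk l)] n
        rw [hτ]
        exact h2
      | @push _ _ _ _ B f _ h1 h2 =>
        have h3 : EPath G (Edge.pushY A B f :: l) (Sum.inl B) := EPath.cons (Edge.pushY A B f) h1 h
        refine ih h3 ?_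
        show Run G m' [some (B, f :: stk l)] n
        rw [hτ]
        exact h2
      | pop h1 h2 => exact absurd (hk.pop _ _ _ h1).1 hA

end Pool.Agent.Lib.UCX
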