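import Pool.Agent.Lib.UCX.Defs

/-!
# UCX, row Fin: finitely many edges

PROOF IN WORDS. The set is contained in the union of the images of finite sets: `unitY`, `unitX` from `G.ctx × V` (the first
symbol of the right-hand side), `pushY` from `G.push`, `stop` from `G.push × G.pop`, `step` from `G.push × G.pop × V`
(`Set.Finite.subset`, `Set.Finite.image`, `Set.Finite.prod`, `Set.finite_univ` for `V`).
-/

set_option autoImplicit false

namespace Pool.Agent.Lib.UCX

/-- the first variable of a word -/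
private def first {G : Grammar} (A : G.V) : List (Sym G.V) → G.V
  | Sym.var B :: _ => B
  | _ => A

theorem finite_edges (G : Grammar) : {e : Edge G | Valid G e}.Finite := by
  have := G.finV
  have hV : (Set.univ : Set G.V).Finite := Set.finite_univ
  have h1 : ((fun x : G.V × List (Sym G.V) => Edge.unitY x.1 (first G.start x.2)) '' G.ctx).Finite :=
    G.finCtx.image _
  have h2 : ((fun x : (G.V × List (Sym G.V)) × G.V => Edge.unitX x.1.1 (first G.start x.1.2) x.2) ''
      (G.ctx ×ˢ Set.univ)).Finite := (G.finCtx.prod hV).image _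
  have h3 : ((fun x : G.V × G.V × G.I => Edge.pushY x.1 x.2.1 x.2.2) '' G.push).Finite :=
    G.finPush.image _
  have h4 : ((fun x : (G.V × G.V × G.I) × (G.V × G.I × List (Sym G.V)) =>
      Edge.stop x.1.1 x.1.2.1 x.1.2.2 x.2.1 x.2.2.2) '' (G.push ×ˢ G.pop)).Finite :=
    (G.finPush.prod G.finPop).image _
  have h5 : ((fun x : ((G.V × G.V × G.I) × (G.V × G.I × List (Sym G.V))) × G.V =>
      Edge.step x.1.1.1 x.1.1.2.1 x.1.1.2.2 x.1.2.1 x.1.2.2.2 x.2) ''
      ((G.push ×ˢ G.pop) ×ˢ Set.univ)).Finite := ((G.finPush.prod G.finPop).prod hV).image _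
  refine (h1.union (h2.union (h3.union (h4.union h5)))).subset ?_
  intro e he
  cases e with
  | unitY A B => exact Or.inl ⟨(A, [Sym.var B]), he, rfl⟩
  | unitX A B C => exact Or.inr (Or.inl ⟨((A, [Sym.var B]), C), ⟨he, trivial⟩, rfl⟩)
  | pushY A B f => exact Or.inr (Or.inr (Or.inl ⟨(A, B, f), he, rfl⟩))
  | stop A B f C α =>
    exact Or.inr (Or.inr (Or.inr (Or.inl ⟨((A, B, f), (C, f, α)), ⟨he.1, he.2.1⟩, rfl⟩)))
  | step A B f C α C' =>
    exact Or.inr (Or.inr (Or.inr (Or.inr ⟨(((A, B, f), (C, f, α)), C'), ⟨⟨he.1, he.2.1⟩, trivial⟩,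
      rfl⟩)))

end Pool.Agent.Lib.UCX
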