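import Pool.Agent.Lib.UCX.Snd

/-!
# UCX, row Inj: the path can be read off from the derivation

PROOF IN WORDS. `inj_enc`: induction on `l` (with `l'`, `q`, `q'` general). The lengths of `pp l` and `l` agree, and the last
elements are `elb e`, so for `l = e :: t`, `l' = e' :: t'`: `pp t = pp t'`, `elb e = elb e'`. The type of `e` is determined:
ctx label: `unitY` iff `rr l = []` (`rr_nil`), else `unitX`; push label: `pushY` iff `rr l = []`; otherwise the head of `rr l` is
`Prd.pop C f α`, the same for `l'`, and `stop` iff `nvar α = 0`, else `step`, with the same `C'` by `kind_unique`. In each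
case `rr t = rr t'` (`stop`, `pushY`, `unitY`: both empty by `rr_nil`; `step`: `(replicate k (rr t)).flatten` determines
`rr t` as `k ≥ 1`, by lengths), so `t = t'` by induction, and for `unitX` the third variable is determined by the end of
`t` (`epath_end`). `split_enc`: `pp` has no labels `Prd.pop`, `rr` has only such labels: compare the first place where a
`Prd.pop` occurs (for example `List.takeWhile` / `List.filter` by a boolean test).
-/

set_option autoImplicit false

namespace Pool.Agent.Lib.UCX

theorem epath_end {G : Grammar} {l : List (Edge G)} {q q' : G.V ⊕ (G.V × G.V)} (h : EPath G l q)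
    (h' : EPath G l q') : q = q' := by
  cases h with
  | nil => cases h'; rfl
  | cons e hv hw => cases h'; rfl

private theorem cons_inv {G : Grammar} {e : Edge G} {t : List (Edge G)} {q : G.V ⊕ (G.V × G.V)}
    (h : EPath G (e :: t) q) : Valid G e ∧ EPath G t (esrc e) := by
  cases h with
  | cons _ hv hw => exact ⟨hv, hw⟩

private theorem rr_inl {G : Grammar} {t : List (Edge G)} {A : G.V} (h : EPath G t (Sum.inl A)) :
    rr t = [] := (rr_nil h).2 ⟨A, rfl⟩

private theorem rr_inr {G : Grammar} {t : List (Edge G)} {p : G.V × G.V}
    (h : EPath G t (Sum.inr p)) : rr t ≠ [] := by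
  intro h0
  obtain ⟨A, hA⟩ := (rr_nil h).1 h0
  cases hA

private theorem flat_inj {T : Type} (k : ℕ) (hk : 1 ≤ k) (a b : List T)
    (h : (List.replicate k a).flatten = (List.replicate k b).flatten) : a = b := by
  obtain ⟨k, rfl⟩ := Nat.exists_eq_add_of_le' hk
  have h1 := congrArg List.length h
  simp only [List.length_flatten, List.map_replicate, List.sum_replicate, smul_eq_mul] at h1
  have h2 : a.length = b.length := Nat.eq_of_mul_eq_mul_left (by omega) h1
  rw [List.replicate_succ, List.replicate_succ, List.flatten_cons, List.flatten_cons] at h
  exact List.append_inj_left h h2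

theorem inj_enc {G : Grammar} {l l' : List (Edge G)} {q q' : G.V ⊕ (G.V × G.V)} (h : EPath G l q)
    (h' : EPath G l' q') (hp : pp l = pp l') (hr : rr l = rr l') : l = l' := by
  induction l generalizing l' q q' with
  | nil =>
    cases l' with
    | nil => rfl
    | cons e' t' => simp [pp] at hp
  | cons e t ih =>
    cases l' with
    | nil => simp [pp] at hp
    | cons e' t' =>
      obtain ⟨hv, ht⟩ := cons_inv h
      obtain ⟨hv', ht'⟩ := cons_inv h'
      have hp2 := List.append_inj' hp rfl
      have hpt : pp t = pp t' := hp2.1
      have hlb : elb e = elb e' := by simpa using hp2.2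
      cases e with
      | unitY A B =>
        cases e' with
        | unitY A' B' =>
          simp only [elb, Prd.ctx.injEq, List.cons.injEq, Sym.var.injEq, and_true] at hlb
          obtain ⟨rfl, rfl⟩ := hlb
          rw [ih ht ht' hpt hr]
        | unitX A' B' C' => exact absurd ((show rr t = rr t' from hr).symm.trans (rr_inl ht)) (rr_inr ht')
        | pushY A' B' f' => simp [elb] at hlb
        | stop A' B' f' C' a' => simp [elb] at hlb
        | step A' B' f' C' a' D' => simp [elb] at hlb
      | unitX A B C =>
        cases e' with
        | unitY A' B' => exact absurd ((show rr t = rr t' from hr).trans (rr_inl ht')) (rr_inr ht)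
        | unitX A' B' C' =>
          simp only [elb, Prd.ctx.injEq, List.cons.injEq, Sym.var.injEq, and_true] at hlb
          obtain ⟨rfl, rfl⟩ := hlb
          have htt := ih ht ht' hpt hr
          subst htt
          have hq := epath_end ht ht'
          simp only [esrc, Sum.inr.injEq, Prod.mk.injEq, true_and] at hq
          rw [hq]
        | pushY A' B' f' => simp [elb] at hlb
        | stop A' B' f' C' a' => simp [elb] at hlb
        | step A' B' f' C' a' D' => simp [elb] at hlb
      | pushY A B f =>
        have hrt : rr t = [] := rr_inl ht
        cases e' with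
        | unitY A' B' => simp [elb] at hlb
        | unitX A' B' C' => simp [elb] at hlb
        | pushY A' B' f' =>
          simp only [elb, Prd.push.injEq] at hlb
          obtain ⟨rfl, rfl, rfl⟩ := hlb
          rw [ih ht ht' hpt hr]
        | stop A' B' f' C' a' => simp [rr, hrt] at hr
        | step A' B' f' C' a' D' => simp [rr, hrt] at hr
      | stop A B f C a =>
        cases e' with
        | unitY A' B' => simp [elb] at hlb
        | unitX A' B' C' => simp [elb] at hlb
        | pushY A' B' f' =>
          have hrt : rr t' = [] := rr_inl ht'
          simp [rr, hrt] at hr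
        | stop A' B' f' C' a' =>
          simp only [elb, Prd.push.injEq] at hlb
          obtain ⟨rfl, rfl, rfl⟩ := hlb
          simp only [rr, List.cons.injEq, Prd.pop.injEq, and_true, true_and] at hr
          obtain ⟨rfl, rfl⟩ := hr
          rw [ih ht ht' hpt ((rr_inl ht).trans (rr_inl ht').symm)]
        | step A' B' f' C' a' D' =>
          simp only [rr, List.cons.injEq, Prd.pop.injEq] at hr
          obtain ⟨⟨-, -, rfl⟩, -⟩ := hr
          have h1 : nvar a = 0 := hv.2.2
          have h2 : 1 ≤ nvar a := hv'.2.2.1
          omega
      | step A B f C a D =>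
        cases e' with
        | unitY A' B' => simp [elb] at hlb
        | unitX A' B' C' => simp [elb] at hlb
        | pushY A' B' f' =>
          have hrt : rr t' = [] := rr_inl ht'
          simp [rr, hrt] at hr
        | stop A' B' f' C' a' =>
          simp only [rr, List.cons.injEq, Prd.pop.injEq] at hr
          obtain ⟨⟨-, -, rfl⟩, -⟩ := hr
          have h1 : nvar a = 0 := hv'.2.2
          have h2 : 1 ≤ nvar a := hv.2.2.1
          omega
        | step A' B' f' C' a' D' =>
          simp only [elb, Prd.push.injEq] at hlb
          obtain ⟨rfl, rfl, rfl⟩ := hlb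
          simp only [rr, List.cons.injEq, Prd.pop.injEq, true_and] at hr
          obtain ⟨⟨rfl, rfl⟩, hfl⟩ := hr
          have hD : D = D' := kind_unique a hv.2.2.1 hv.2.2.2 hv'.2.2.2
          subst hD
          rw [ih ht ht' hpt (flat_inj _ hv.2.2.1 _ _ hfl)]

private def isPop {G : Grammar} : Prd G → Bool
  | Prd.ctx _ _ => false
  | Prd.push _ _ _ => false
  | Prd.pop _ _ _ => true

private theorem pp_no {G : Grammar} (l : List (Edge G)) : ∀ x ∈ pp l, isPop x = false := by
  induction l with
  | nil => intro x hx; simp [pp] at hx
  | cons e t ih =>
    intro x hx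
    simp only [pp, List.mem_append, List.mem_singleton] at hx
    rcases hx with hx | rfl
    · exact ih x hx
    · cases e <;> rfl

private theorem rr_yes {G : Grammar} (l : List (Edge G)) : ∀ x ∈ rr l, isPop x = true := by
  induction l with
  | nil => intro x hx; simp [rr] at hx
  | cons e t ih =>
    intro x hx
    cases e with
    | unitY A B => exact ih x hx
    | unitX A B C => exact ih x hx
    | pushY A B f => exact ih x hx
    | stop A B f C a =>
      simp only [rr, List.mem_singleton] at hx
      rw [hx]; rfl
    | step A B f C a D =>
      simp only [rr, List.mem_cons, List.mem_flatten, List.mem_replicate] at hx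
      rcases hx with rfl | ⟨m, ⟨-, rfl⟩, hm⟩
      · rfl
      · exact ih x hm

private theorem filt {G : Grammar} (l : List (Edge G)) :
    (pp l ++ rr l).filter (fun x => !isPop x) = pp l ∧ (pp l ++ rr l).filter isPop = rr l := by
  constructor
  · rw [List.filter_append, List.filter_eq_self.2 (fun x hx => by simp [pp_no l x hx]),
      List.filter_eq_nil_iff.2 (fun x hx => by simp [rr_yes l x hx]), List.append_nil]
  · rw [List.filter_append, List.filter_eq_nil_iff.2 (fun x hx => by simp [pp_no l x hx]),
      List.filter_eq_self.2 (fun x hx => by simp [rr_yes l x hx]), List.nil_append]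

theorem split_enc {G : Grammar} {l l' : List (Edge G)} (h : pp l ++ rr l = pp l' ++ rr l') :
    pp l = pp l' ∧ rr l = rr l' := by
  constructor
  · rw [← (filt l).1, h, (filt l').1]
  · rw [← (filt l).2, h, (filt l').2]

end Pool.Agent.Lib.UCX
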