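import Pool.Agent.Lib.UCX.Defs

/-!
# UCX, row Dif: an analytic difference (only Mathlib)

PROOF IN WORDS. Let `g x s = (b v x + d + 1)^(-s) - (b (v x + 1))^(-s)` and `h s = ∑' x, g x s`. Both numbers are real and
`≥ m := v x + 1 ≥ 1`, their distance is at most `b + d`. The function `t ↦ (t : ℂ)^(-s)` has the derivative
`-s t^(-s-1)`, of norm `|s| t^(-Re s - 1) ≤ |s| m^(-Re s - 1)` for `t ≥ m` (if `Re s ≥ -1`), so by the mean value
inequality (`Convex.norm_image_sub_le_of_norm_hasDerivWithin_le` on `Set.Ici m`, or on the segment)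
`‖g x s‖ ≤ ‖s‖ (b + d) m^(-Re s - 1)`. For `s` in the ball of centre `1` and radius `1/2`: `≤ 2 (b + d) m^(-3/2)`,
summable over `x` as `v` is injective (`Real.summable_nat_rpow_inv` shifted by one, `Summable.comp_injective`). So `h` is
differentiable on the ball (`differentiableOn_tsum_of_summable_norm`), so analytic at `1`
(`DifferentiableOn.analyticAt`). For real `s > 1` both series converge absolutely (`‖n^(-s)‖ = n^(-s)`, comparison with
`(v x + 1)^(-s)`), so `h s` is the difference of the sums (`Summable.tsum_sub`), and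
`(b (v x + 1))^(-s) = b^(-s) (v x + 1)^(-s)` (`Complex.natCast_mul_natCast_cpow` or `Complex.mul_cpow_ofReal_nonneg`), `tsum_mul_left`.
-/

set_option autoImplicit false

open Filter Topology Finset

namespace Pool.Agent.Lib.UCX

private theorem norm_diff_le {s : ℂ} (hs : -1 ≤ s.re) {m a c : ℝ} (hm : 1 ≤ m) (ha : m ≤ a) (hc : m ≤ c) :
    ‖(a : ℂ) ^ (-s) - (c : ℂ) ^ (-s)‖ ≤ ‖s‖ * m ^ (-s.re - 1) * ‖a - c‖ := by
  have hd : ∀ t ∈ Set.Ici m, HasDerivWithinAt (fun t : ℝ => (t : ℂ) ^ (-s)) (-s * (t : ℂ) ^ (-s - 1)) (Set.Ici m) t := by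
    intro t ht
    have ht0 : 0 < t := by
      have : m ≤ t := ht
      linarith
    have h1 : HasDerivAt (fun z : ℂ => z ^ (-s)) (-s * (t : ℂ) ^ (-s - 1)) (t : ℂ) := by
      have := (hasDerivAt_id (t : ℂ)).cpow_const (c := -s) (Or.inl (by simpa using ht0))
      simpa using this
    exact h1.comp_ofReal.hasDerivWithinAt
  have hb : ∀ t ∈ Set.Ici m, ‖-s * (t : ℂ) ^ (-s - 1)‖ ≤ ‖s‖ * m ^ (-s.re - 1) := by
    intro t ht
    have ht1 : m ≤ t := ht
    have ht0 : 0 < t := by linarith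
    rw [norm_mul, norm_neg, Complex.norm_cpow_eq_rpow_re_of_pos ht0]
    refine mul_le_mul_of_nonneg_left ?_ (norm_nonneg _)
    have h2 : (-s - 1).re = -s.re - 1 := by simp
    rw [h2]
    exact Real.rpow_le_rpow_of_nonpos (by linarith) ht1 (by linarith)
  exact (convex_Ici m).norm_image_sub_le_of_norm_hasDerivWithin_le hd hb hc ha

private theorem summable_rpow {Y : Type} (v : Y → ℕ) (hv : Function.Injective v) {s : ℝ} (hs : 1 < s) :
    Summable fun x => ((v x + 1 : ℕ) : ℝ) ^ (-s) := by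
  have h1 : Summable fun n : ℕ => ((n : ℕ) : ℝ) ^ (-s) := Real.summable_nat_rpow.2 (by linarith)
  have h2 := (summable_nat_add_iff 1).2 h1
  exact h2.comp_injective hv

/-- convergence for `s > 1` -/
theorem summable_cpow {Y : Type} (v : Y → ℕ) (hv : Function.Injective v) {s : ℝ} (hs : 1 < s) :
    Summable fun x => ((v x + 1 : ℕ) : ℂ) ^ (-(s : ℂ)) := by
  refine Summable.of_norm ?_
  refine (summable_rpow v hv hs).congr fun x => ?_
  rw [Complex.norm_natCast_cpow_of_pos (Nat.succ_pos _)]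
  simp

theorem diff_analytic {Y : Type} (v : Y → ℕ) (hv : Function.Injective v) (b d : ℕ) (hb : 1 ≤ b) :
    ∃ h : ℂ → ℂ, AnalyticAt ℂ h 1 ∧ ∀ s : ℝ, 1 < s →
      ∑' x, ((b * v x + d + 1 : ℕ) : ℂ) ^ (-(s : ℂ)) =
        (b : ℂ) ^ (-(s : ℂ)) * ∑' x, ((v x + 1 : ℕ) : ℂ) ^ (-(s : ℂ)) + h s := by
  refine ⟨fun s => ∑' x, (((b * v x + d + 1 : ℕ) : ℂ) ^ (-s) - ((b * (v x + 1) : ℕ) : ℂ) ^ (-s)), ?_, ?_⟩
  · have hu : Summable fun x => 2 * ((b : ℝ) + d) * ((v x + 1 : ℕ) : ℝ) ^ (-(3 / 2) : ℝ) :=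
      (summable_rpow v hv (by norm_num : (1 : ℝ) < 3 / 2)).mul_left _
    have hD : DifferentiableOn ℂ (fun s => ∑' x, (((b * v x + d + 1 : ℕ) : ℂ) ^ (-s) - ((b * (v x + 1) : ℕ) : ℂ) ^ (-s)))
        (Metric.ball (1 : ℂ) (1 / 2)) := by
      refine Complex.differentiableOn_tsum_of_summable_norm hu ?_ Metric.isOpen_ball ?_
      · intro x
        have e1 : ((b * v x + d + 1 : ℕ) : ℂ) ≠ 0 := Nat.cast_ne_zero.2 (Nat.succ_ne_zero (b * v x + d))
        have e2 : ((b * (v x + 1) : ℕ) : ℂ) ≠ 0 := by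
          have : b * (v x + 1) ≠ 0 := Nat.mul_ne_zero (by omega) (Nat.succ_ne_zero _)
          exact Nat.cast_ne_zero.2 this
        intro w _
        exact ((differentiableAt_id.neg.const_cpow (Or.inl e1)).sub
          (differentiableAt_id.neg.const_cpow (Or.inl e2))).differentiableWithinAt
      · intro x w hw
        have h1 : ‖w - 1‖ < 1 / 2 := by simpa [dist_eq_norm] using hw
        have h2 : |(w - 1).re| ≤ ‖w - 1‖ := Complex.abs_re_le_norm _
        have h3 : 1 / 2 < w.re := by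
          have := (abs_lt.1 (h2.trans_lt h1)).1
          simp at this
          linarith
        have h4 : ‖w‖ ≤ 2 := by
          have : ‖w‖ ≤ ‖w - 1‖ + ‖(1 : ℂ)‖ := by
            have := norm_add_le (w - 1) 1
            simpa using this
          rw [norm_one] at this
          linarith
        have hm : (1 : ℝ) ≤ ((v x + 1 : ℕ) : ℝ) := by exact_mod_cast Nat.succ_le_succ (Nat.zero_le _)
        have h5 : v x ≤ b * v x := Nat.le_mul_of_pos_left _ hb
        have h6 : v x + 1 ≤ b * (v x + 1) := Nat.le_mul_of_pos_left _ hb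
        have h7 := norm_diff_le (s := w) (by linarith) (m := ((v x + 1 : ℕ) : ℝ)) (a := ((b * v x + d + 1 : ℕ) : ℝ))
          (c := ((b * (v x + 1) : ℕ) : ℝ)) hm (by exact_mod_cast (by omega : v x + 1 ≤ b * v x + d + 1))
          (by exact_mod_cast h6)
        rw [Complex.ofReal_natCast, Complex.ofReal_natCast] at h7
        refine h7.trans ?_
        have h8 : ‖((b * v x + d + 1 : ℕ) : ℝ) - ((b * (v x + 1) : ℕ) : ℝ)‖ ≤ (b : ℝ) + d := by
          push_cast
          rw [Real.norm_eq_abs, abs_le]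
          have hb' : (1 : ℝ) ≤ b := by exact_mod_cast hb
          have hd' : (0 : ℝ) ≤ d := Nat.cast_nonneg d
          constructor <;> nlinarith
        have h9 : ((v x + 1 : ℕ) : ℝ) ^ (-w.re - 1) ≤ ((v x + 1 : ℕ) : ℝ) ^ (-(3 / 2) : ℝ) :=
          Real.rpow_le_rpow_of_exponent_le hm (by linarith)
        have h10 : 0 ≤ ((v x + 1 : ℕ) : ℝ) ^ (-(3 / 2) : ℝ) := Real.rpow_nonneg (by linarith) _
        calc ‖w‖ * ((v x + 1 : ℕ) : ℝ) ^ (-w.re - 1) * ‖((b * v x + d + 1 : ℕ) : ℝ) - ((b * (v x + 1) : ℕ) : ℝ)‖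
            ≤ 2 * ((v x + 1 : ℕ) : ℝ) ^ (-(3 / 2) : ℝ) * ((b : ℝ) + d) :=
              mul_le_mul (mul_le_mul h4 h9 (Real.rpow_nonneg (by linarith) _) (by norm_num)) h8 (norm_nonneg _)
                (mul_nonneg (by norm_num) h10)
          _ = 2 * ((b : ℝ) + d) * ((v x + 1 : ℕ) : ℝ) ^ (-(3 / 2) : ℝ) := by ring
    exact hD.analyticAt (Metric.isOpen_ball.mem_nhds (Metric.mem_ball_self (by norm_num)))
  · intro s hs
    have hm := summable_cpow v hv hs
    have ec : ∀ x, ((b * (v x + 1) : ℕ) : ℂ) ^ (-(s : ℂ)) = (b : ℂ) ^ (-(s : ℂ)) * ((v x + 1 : ℕ) : ℂ) ^ (-(s : ℂ)) := by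
      intro x
      rw [Nat.cast_mul, Complex.natCast_mul_natCast_cpow]
    have hc : Summable fun x => ((b * (v x + 1) : ℕ) : ℂ) ^ (-(s : ℂ)) := by
      simp_rw [ec]
      exact hm.mul_left _
    have ha : Summable fun x => ((b * v x + d + 1 : ℕ) : ℂ) ^ (-(s : ℂ)) := by
      refine Summable.of_norm_bounded (summable_rpow v hv hs) fun x => ?_
      rw [Complex.norm_natCast_cpow_of_pos (Nat.succ_pos _)]
      have h5 : v x ≤ b * v x := Nat.le_mul_of_pos_left _ hb
      have e : (-(s : ℂ)).re = -s := by simp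
      rw [e]
      refine Real.rpow_le_rpow_of_nonpos ?_ ?_ (by linarith)
      · exact_mod_cast Nat.succ_pos _
      · exact_mod_cast (by omega : v x + 1 ≤ b * v x + d + 1)
    show _ = _ + ∑' x, (((b * v x + d + 1 : ℕ) : ℂ) ^ (-(s : ℂ)) - ((b * (v x + 1) : ℕ) : ℂ) ^ (-(s : ℂ)))
    rw [ha.tsum_sub hc, ← tsum_mul_left]
    simp_rw [ec]
    ring

end Pool.Agent.Lib.UCX
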