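import Pool.Agent.Lib.UCX.Gdef

/-!
# MP_aa59b8_lc: unary composites and unambiguous indexed grammars. Auxiliary definitions
-/

set_option autoImplicit false

namespace Pool.Agent.Lib.UCX

/-- number of variables in `α` -/
def nvar {V : Type} : List (Sym V) → ℕ
  | [] => 0
  | Sym.zero :: α => nvar α
  | Sym.var _ :: α => nvar α + 1

/-- number of zeros in `α` -/
def nzero {V : Type} : List (Sym V) → ℕ
  | [] => 0
  | Sym.zero :: α => nzero α + 1
  | Sym.var _ :: α => nzero α

/-- There is a context for `(B, τ)` in derivations from the start: every derivation from `(B, τ)` can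
be extended (injectively) to a derivation from the start, the value changes by `n ↦ β n + δ`. -/
def Ctx (G : Grammar) (B : G.V) (τ : List G.I) : Prop :=
  ∃ (g : List (Prd G) → List (Prd G)) (β δ : ℕ), Function.Injective g ∧
    ∀ m n, Run G m [some (B, τ)] n → Run G (g m) [some (G.start, [])] (β * n + δ)

/-! ### finite systems of maps `n ↦ b n + d` -/

/-- A finite graph with edges labelled by maps `n ↦ b n + d`, a start state and final states. -/
structure Sys where
  Q : Type
  E : Type
  finQ : Finite Q
  finE : Finite E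
  q0 : Q
  src : E → Q
  tgt : E → Q
  b : E → ℕ
  d : E → ℕ
  fin : Set Q

/-- `Path S q w q'`: the list `w` of edges (the last edge first) is a path from `q` to `q'`. -/
inductive Path (S : Sys) : S.Q → List S.E → S.Q → Prop
  | nil (q : S.Q) : Path S q [] q
  | cons {q : S.Q} {w : List S.E} (e : S.E) : Path S q w (S.src e) → Path S q (e :: w) (S.tgt e)

/-- the value of a path: start with `0` and apply the maps of the edges -/
def val (S : Sys) : List S.E → ℕ
  | [] => 0
  | e :: l => S.b e * val S l + S.d e

/-- the product of the factors `b` of the edges -/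
def bm (S : Sys) : List S.E → ℕ
  | [] => 1
  | e :: l => S.b e * bm S l

/-- the paths from the start state to `q` -/
def X (S : Sys) (q : S.Q) : Set (List S.E) := {l | Path S S.q0 l q}

/-- different paths to final states have different values -/
def Uniq (S : Sys) : Prop := ∀ (q q' : S.Q) (l l' : List S.E), q ∈ S.fin → q' ∈ S.fin → l ∈ X S q →
  l' ∈ X S q' → val S l = val S l' → l = l'

/-- the values of the paths to final states -/
def Vals (S : Sys) : Set ℕ := {n | ∃ q ∈ S.fin, ∃ l ∈ X S q, val S l = n}

/-- a final state can be reached from `q` -/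
def Live (S : Sys) (q : S.Q) : Prop := ∃ q' ∈ S.fin, ∃ w, Path S q w q'

/-- `q` is on a cycle all whose edges have `b = 1` -/
def Cyc (S : Sys) (q : S.Q) : Prop := ∃ w : List S.E, w ≠ [] ∧ Path S q w q ∧ ∀ e ∈ w, S.b e = 1

/-- the Dirichlet series of the state `q`, at real points -/
noncomputable def Dir (S : Sys) (q : S.Q) (s : ℝ) : ℂ :=
  ∑' l : X S q, ((val S (l : List S.E) + 1 : ℕ) : ℂ) ^ (-(s : ℂ))

/-- the Dirichlet series of a set of natural numbers, at real points -/
noncomputable def DirN (T : Set ℕ) (s : ℝ) : ℂ := ∑' n : T, (((n : ℕ) + 1 : ℕ) : ℂ) ^ (-(s : ℂ))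

/-- the series of the `(p + 1)^(-s)` -/
noncomputable def PS (s : ℝ) : ℝ := ∑' p : Nat.Primes, ((p : ℝ) + 1) ^ (-s)

/-! ### the system of a grammar -/

/-- The edges: `unitY`, `pushY` are steps of the first phase, the others are steps of the first phase
together with the corresponding step of the second phase. -/
inductive Edge (G : Grammar) : Type where
  | unitY : G.V → G.V → Edge G
  | unitX : G.V → G.V → G.V → Edge G
  | pushY : G.V → G.V → G.I → Edge G
  | stop : G.V → G.V → G.I → G.V → List (Sym G.V) → Edge G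
  | step : G.V → G.V → G.I → G.V → List (Sym G.V) → G.V → Edge G

/-- the edges which belong to productions -/
def Valid (G : Grammar) : Edge G → Prop
  | Edge.unitY A B => (A, [Sym.var B]) ∈ G.ctx
  | Edge.unitX A B _ => (A, [Sym.var B]) ∈ G.ctx
  | Edge.pushY A B f => (A, B, f) ∈ G.push
  | Edge.stop A B f C α => (A, B, f) ∈ G.push ∧ (C, f, α) ∈ G.pop ∧ nvar α = 0
  | Edge.step A B f C α C' => (A, B, f) ∈ G.push ∧ (C, f, α) ∈ G.pop ∧ 1 ≤ nvar α ∧
      ∀ s ∈ α, s = Sym.zero ∨ s = Sym.var C'

def esrc {G : Grammar} : Edge G → G.V ⊕ (G.V × G.V)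
  | Edge.unitY A _ => Sum.inl A
  | Edge.unitX A _ C => Sum.inr (A, C)
  | Edge.pushY A _ _ => Sum.inl A
  | Edge.stop A _ _ _ _ => Sum.inl A
  | Edge.step A _ _ _ _ C' => Sum.inr (A, C')

def etgt {G : Grammar} : Edge G → G.V ⊕ (G.V × G.V)
  | Edge.unitY _ B => Sum.inl B
  | Edge.unitX _ B C => Sum.inr (B, C)
  | Edge.pushY _ B _ => Sum.inl B
  | Edge.stop _ B _ C _ => Sum.inr (B, C)
  | Edge.step _ B _ C _ _ => Sum.inr (B, C)

def eb {G : Grammar} : Edge G → ℕ
  | Edge.unitY _ _ => 1
  | Edge.unitX _ _ _ => 1
  | Edge.pushY _ _ _ => 1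
  | Edge.stop _ _ _ _ _ => 0
  | Edge.step _ _ _ _ α _ => nvar α

def ed {G : Grammar} : Edge G → ℕ
  | Edge.unitY _ _ => 0
  | Edge.unitX _ _ _ => 0
  | Edge.pushY _ _ _ => 0
  | Edge.stop _ _ _ _ α => nzero α
  | Edge.step _ _ _ _ α _ => nzero α

/-- the production of the first phase which belongs to an edge -/
def elb {G : Grammar} : Edge G → Prd G
  | Edge.unitY A B => Prd.ctx A [Sym.var B]
  | Edge.unitX A B _ => Prd.ctx A [Sym.var B]
  | Edge.pushY A B f => Prd.push A B f
  | Edge.stop A B f _ _ => Prd.push A B f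
  | Edge.step A B f _ _ _ => Prd.push A B f

/-- the stack after the first phase -/
def stk {G : Grammar} : List (Edge G) → List G.I
  | [] => []
  | Edge.unitY _ _ :: l => stk l
  | Edge.unitX _ _ _ :: l => stk l
  | Edge.pushY _ _ f :: l => f :: stk l
  | Edge.stop _ _ f _ _ :: l => f :: stk l
  | Edge.step _ _ f _ _ _ :: l => f :: stk l

/-- the productions of the first phase -/
def pp {G : Grammar} : List (Edge G) → List (Prd G)
  | [] => []
  | e :: l => pp l ++ [elb e]

/-- the productions of the second phase -/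
def rr {G : Grammar} : List (Edge G) → List (Prd G)
  | [] => []
  | Edge.unitY _ _ :: l => rr l
  | Edge.unitX _ _ _ :: l => rr l
  | Edge.pushY _ _ _ :: l => rr l
  | Edge.stop _ _ f C α :: _ => [Prd.pop C f α]
  | Edge.step _ _ f C α _ :: l => Prd.pop C f α :: (List.replicate (nvar α) (rr l)).flatten

/-- paths of edges which belong to productions -/
inductive EPath (G : Grammar) : List (Edge G) → G.V ⊕ (G.V × G.V) → Prop
  | nil : EPath G [] (Sum.inl G.start)
  | cons {w : List (Edge G)} (e : Edge G) : Valid G e → EPath G w (esrc e) → EPath G (e :: w) (etgt e)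

/-- the value of a list of edges -/
def eval {G : Grammar} : List (Edge G) → ℕ
  | [] => 0
  | e :: l => eb e * eval l + ed e

/-- the variable of the first phase -/
def fst' {G : Grammar} : G.V ⊕ (G.V × G.V) → G.V
  | Sum.inl A => A
  | Sum.inr (A, _) => A

end Pool.Agent.Lib.UCX
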