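import Mathlib

/-!
# MP_aa59b8_lc: unary composites and unambiguous indexed grammars. Definitions
-/

set_option autoImplicit false

namespace Pool.Agent.Lib.UCX

/-- The symbols of the right-hand sides of productions: the terminal `0` and the variables. -/
inductive Sym (V : Type) : Type where
  | zero : Sym V
  | var : V → Sym V

/-- Indexed grammars over the one-letter alphabet `{0}` (reduced form): finite sets of variables `V`
and index symbols `I`, a start variable, finite sets of productions `A → α`, `A → B_f`, `A_f → α`. -/
structure Grammar where
  V : Type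
  I : Type
  finV : Finite V
  finI : Finite I
  start : V
  ctx : Set (V × List (Sym V))
  push : Set (V × V × I)
  pop : Set (V × I × List (Sym V))
  finCtx : ctx.Finite
  finPush : push.Finite
  finPop : pop.Finite

/-- The letters of the sentential forms: `none` is the terminal `0`, `some (A, σ)` the variable `A`
with the stack `σ`. -/
abbrev Item (G : Grammar) : Type := Option (G.V × List G.I)

/-- The word `α` in which every variable gets the stack `σ`. -/
def inst {G : Grammar} (σ : List G.I) (α : List (Sym G.V)) : List (Item G) :=
  α.map fun s => match s with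
    | Sym.zero => none
    | Sym.var A => some (A, σ)

/-- The productions. -/
inductive Prd (G : Grammar) : Type where
  | ctx : G.V → List (Sym G.V) → Prd G
  | push : G.V → G.V → G.I → Prd G
  | pop : G.V → G.I → List (Sym G.V) → Prd G

/-- `Run G l w n`: the productions of the list `l`, applied one after the other, each to the leftmost
variable, lead from the sentential form `w` to the word `0^n`. -/
inductive Run (G : Grammar) : List (Prd G) → List (Item G) → ℕ → Prop
  | nil : Run G [] [] 0
  | zero {l : List (Prd G)} {w : List (Item G)} {n : ℕ} : Run G l w n → Run G l (none :: w) (n + 1)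
  | ctx {l : List (Prd G)} {w : List (Item G)} {n : ℕ} {A : G.V} {α : List (Sym G.V)} {σ : List G.I} :
      (A, α) ∈ G.ctx → Run G l (inst σ α ++ w) n → Run G (Prd.ctx A α :: l) (some (A, σ) :: w) n
  | push {l : List (Prd G)} {w : List (Item G)} {n : ℕ} {A B : G.V} {f : G.I} {σ : List G.I} :
      (A, B, f) ∈ G.push → Run G l (some (B, f :: σ) :: w) n →
        Run G (Prd.push A B f :: l) (some (A, σ) :: w) n
  | pop {l : List (Prd G)} {w : List (Item G)} {n : ℕ} {A : G.V} {f : G.I} {α : List (Sym G.V)}
      {σ : List G.I} :
      (A, f, α) ∈ G.pop → Run G l (inst σ α ++ w) n →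
        Run G (Prd.pop A f α :: l) (some (A, f :: σ) :: w) n

/-- The `n` such that `0^n` is in the language of `G`. -/
def Lang (G : Grammar) : Set ℕ := {n | ∃ l, Run G l [some (G.start, [])] n}

/-- Every word of the language has exactly one leftmost derivation. -/
def Unambiguous (G : Grammar) : Prop :=
  ∀ (n : ℕ) (l l' : List (Prd G)), Run G l [some (G.start, [])] n →
    Run G l' [some (G.start, [])] n → l = l'

/-- One-kind push-pop grammars: outside the set `P` of variables there are only productions
`A → B` and `A → B_f`, for the variables in `P` there are only productions `A_f → α` such that, for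
some `B` in `P`, all symbols of `α` are `0` or `B`. -/
structure OneKind (G : Grammar) (P : Set G.V) : Prop where
  ctx : ∀ A α, (A, α) ∈ G.ctx → A ∉ P ∧ ∃ B, α = [Sym.var B]
  push : ∀ A B f, (A, B, f) ∈ G.push → A ∉ P
  pop : ∀ A f α, (A, f, α) ∈ G.pop → A ∈ P ∧ ∃ B ∈ P, ∀ s ∈ α, s = Sym.zero ∨ s = Sym.var B

/-- Composite numbers. -/
def Composite (n : ℕ) : Prop := 2 ≤ n ∧ ¬ n.Prime

end Pool.Agent.Lib.UCX
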