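import Pool.Agent.Lib.UCX.Run

/-!
# UCX, row Ins: derivations from a word with one kind of variable

PROOF IN WORDS. Induction on `α` (with `ms` generalised). `fill`: `α = zero :: α'`: `Run.zero`. `α = var C' :: α'`:
`hα` gives `C' = C`, `ms = x :: ms'`, `run_append (h x) (ih ms')` with `w1 = [some (C, σ)]`. `unfill`: `zero`: invert
`Run.zero`. `var`: `run_split [some (C, σ)] (inst σ α')`.
-/

set_option autoImplicit false

namespace Pool.Agent.Lib.UCX

theorem fill {G : Grammar} (σ : List G.I) (C : G.V) (α : List (Sym G.V))
    (hα : ∀ s ∈ α, s = Sym.zero ∨ s = Sym.var C) (ms : List (List (Prd G) × ℕ))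
    (hl : ms.length = nvar α) (h : ∀ x ∈ ms, Run G x.1 [some (C, σ)] x.2) :
    Run G (ms.map Prod.fst).flatten (inst σ α) ((ms.map Prod.snd).sum + nzero α) := by
  induction α generalizing ms with
  | nil =>
    have : ms = [] := List.length_eq_zero_iff.1 hl
    subst this
    exact Run.nil
  | cons s α ih =>
    have hα' : ∀ t ∈ α, t = Sym.zero ∨ t = Sym.var C := fun t ht =>
      hα t (List.mem_cons_of_mem _ ht)
    cases s with
    | zero =>
      have h1 := ih hα' ms hl h
      have h2 := Run.zero h1
      exact h2
    | var C' =>
      have hC : C' = C := by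
        rcases hα (Sym.var C') List.mem_cons_self with h' | h'
        · cases h'
        · injection h'
      subst hC
      cases ms with
      | nil => simp [nvar] at hl
      | cons x ms =>
        have hl' : ms.length = nvar α := by simpa [nvar] using hl
        have h1 := ih hα' ms hl' (fun y hy => h y (List.mem_cons_of_mem _ hy))
        have h2 := run_append (h x List.mem_cons_self) h1
        have e1 : ((x :: ms).map Prod.fst).flatten = x.1 ++ (ms.map Prod.fst).flatten := by simp
        have e2 : ((x :: ms).map Prod.snd).sum + nzero (Sym.var C' :: α) =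
            x.2 + ((ms.map Prod.snd).sum + nzero α) := by
          simp only [List.map_cons, List.sum_cons, nzero]
          omega
        rw [e1, e2]
        exact h2

theorem unfill {G : Grammar} (σ : List G.I) (C : G.V) (α : List (Sym G.V))
    (hα : ∀ s ∈ α, s = Sym.zero ∨ s = Sym.var C) {m : List (Prd G)} {n : ℕ}
    (h : Run G m (inst σ α) n) : ∃ ms : List (List (Prd G) × ℕ), ms.length = nvar α ∧
      (∀ x ∈ ms, Run G x.1 [some (C, σ)] x.2) ∧ m = (ms.map Prod.fst).flatten ∧
      n = (ms.map Prod.snd).sum + nzero α := by
  induction α generalizing m n with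
  | nil =>
    refine ⟨[], rfl, fun x hx => absurd hx (by simp), ?_, ?_⟩
    · cases h
      rfl
    · cases h
      rfl
  | cons s α ih =>
    have hα' : ∀ t ∈ α, t = Sym.zero ∨ t = Sym.var C := fun t ht =>
      hα t (List.mem_cons_of_mem _ ht)
    cases s with
    | zero =>
      cases h with
      | zero h1 =>
        obtain ⟨ms, a, b, c, d⟩ := ih hα' h1
        refine ⟨ms, a, b, c, ?_⟩
        rw [d]
        simp only [nzero]
        omega
    | var C' =>
      have hC : C' = C := by
        rcases hα (Sym.var C') List.mem_cons_self with h' | h'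
        · cases h'
        · injection h'
      subst hC
      have h0 : Run G m ([some (C', σ)] ++ inst σ α) n := h
      obtain ⟨m1, m2, n1, n2, e1, e2, h1, h2⟩ := run_split _ _ h0
      obtain ⟨ms, a, b, c, d⟩ := ih hα' h2
      refine ⟨(m1, n1) :: ms, by simp [nvar, a], ?_, ?_, ?_⟩
      · intro x hx
        rcases List.mem_cons.1 hx with h' | h'
        · rw [h']
          exact h1
        · exact b x h'
      · rw [e1, c]
        simp
      · rw [e2, d]
        simp only [List.map_cons, List.sum_cons, nzero]
        omega

theorem all_zero {V : Type} (α : List (Sym V)) (h : nvar α = 0) : ∀ s ∈ α, s = Sym.zero := by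
  induction α with
  | nil => intro s hs; cases hs
  | cons t α ih =>
    cases t with
    | zero =>
      intro s hs
      rcases List.mem_cons.1 hs with h1 | h1
      · exact h1
      · exact ih h s h1
    | var A => simp [nvar] at h

theorem kind_unique {V : Type} {C C' : V} (α : List (Sym V)) (h : 1 ≤ nvar α)
    (h1 : ∀ s ∈ α, s = Sym.zero ∨ s = Sym.var C) (h2 : ∀ s ∈ α, s = Sym.zero ∨ s = Sym.var C') :
    C = C' := by
  induction α with
  | nil => simp [nvar] at h
  | cons t α ih =>
    cases t with
    | zero =>
      exact ih h (fun s hs => h1 s (List.mem_cons_of_mem _ hs))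
        (fun s hs => h2 s (List.mem_cons_of_mem _ hs))
    | var A =>
      have e1 : A = C := by
        rcases h1 (Sym.var A) List.mem_cons_self with h' | h'
        · cases h'
        · injection h'
      have e2 : A = C' := by
        rcases h2 (Sym.var A) List.mem_cons_self with h' | h'
        · cases h'
        · injection h'
      rw [← e1, ← e2]

end Pool.Agent.Lib.UCX
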