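import Pool.Agent.Lib.UCX.Dec
import Pool.Agent.Lib.UCX.ApA
import Pool.Agent.Lib.UCX.ApB
import Pool.Agent.Lib.UCX.Nil
import Pool.Agent.Lib.UCX.Det
import Pool.Agent.Lib.UCX.Slv
import Pool.Agent.Lib.UCX.Prm
import Pool.Agent.Lib.UCX.Mer
import Pool.Agent.Lib.UCX.Tot

/-!
# UCX, row Smn: the values of a finite system are not the composite numbers
-/

set_option autoImplicit false

open Filter Topology Finset

namespace Pool.Agent.Lib.UCX


/-- a walk in the graph of the `b = 1` edges is a path -/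
private theorem walk {S : Sys} (r : S.Q → S.Q → Prop)
    (hr : ∀ i j, r i j → ∃ e : S.E, S.b e = 1 ∧ S.tgt e = i ∧ S.src e = j) {i j : S.Q}
    (h : Relation.TransGen r i j) : ∃ w : List S.E, w ≠ [] ∧ Path S j w i ∧ ∀ e ∈ w, S.b e = 1 := by
  induction h with
  | single h =>
    obtain ⟨e, h1, h2, h3⟩ := hr _ _ h
    subst h2 h3
    exact ⟨[e], by simp, Path.cons e (Path.nil _), by simpa using h1⟩
  | tail _ h ih =>
    obtain ⟨w, hw, hp, hb⟩ := ih
    obtain ⟨e, h1, h2, h3⟩ := hr _ _ h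
    subst h3
    rw [← h2] at hp
    refine ⟨w ++ [e], by simp, path_append (Path.cons e (Path.nil _)) hp, ?_⟩
    intro e' he'
    rcases List.mem_append.1 he' with h | h
    · exact hb e' h
    · rw [List.mem_singleton.1 h]
      exact h1

/-- finite state: the series is a finite sum -/
private theorem dir_finite (S : Sys) {q : S.Q} (h : (X S q).Finite) :
    ∃ H : ℂ → ℂ, AnalyticAt ℂ H 1 ∧ ∀ s : ℝ, 1 < s → Dir S q s = H s := by
  classical
  have := h.fintype
  refine ⟨fun s => ∑ l : X S q, ((val S (l : List S.E) + 1 : ℕ) : ℂ) ^ (-s), ?_, fun s _ => ?_⟩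
  · refine Finset.analyticAt_fun_sum _ fun l _ => ?_
    have h0 : ((val S (l : List S.E) + 1 : ℕ) : ℂ) ≠ 0 :=
      Nat.cast_ne_zero.2 (Nat.succ_ne_zero _)
    have hd : Differentiable ℂ fun s : ℂ => ((val S (l : List S.E) + 1 : ℕ) : ℂ) ^ (-s) := by
      intro s
      exact (differentiableAt_id.neg).const_cpow (Or.inl h0)
    exact hd.analyticAt 1
  · unfold Dir
    rw [tsum_fintype]

open Classical in
theorem sys_main (S : Sys) (hu : Uniq S) (hv : Vals S = {n | Composite n}) : False := by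
  have := S.finQ
  have := S.finE
  have := Fintype.ofFinite S.Q
  have := Fintype.ofFinite S.E
  -- the good states
  obtain ⟨Good, hGood⟩ : ∃ Good : S.Q → Prop, Good = fun q => Live S q ∧ (X S q).Infinite ∧ ¬ Cyc S q :=
    ⟨_, rfl⟩
  have hG0 : ∀ q, Good q ↔ (Live S q ∧ (X S q).Infinite ∧ ¬ Cyc S q) := fun q => by rw [hGood]
  clear hGood
  -- cycle states
  have hcyc : ∀ q, Live S q → (X S q).Infinite → Cyc S q →
      ∃ H : ℂ → ℂ, AnalyticAt ℂ H 1 ∧ ∀ s : ℝ, 1 < s → ((s : ℂ) - 1) * Dir S q s = H s := by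
    intro q h1 h2 h3
    obtain ⟨κ, hκ, hsh⟩ := cyc_set S hu h1 h2 h3
    obtain ⟨H, hH, hH'⟩ := dirN_shift _ κ hκ hsh
    refine ⟨H, hH, fun s hs => ?_⟩
    rw [dir_eq S hu h1 h2, hH' s hs]
  -- the matrix
  let E2 := {e : S.E // Good (S.tgt e) ∧ Good (S.src e)}
  let Q2 := {q : S.Q // Good q}
  let c : E2 → Matrix Q2 Q2 ℂ := fun e => Matrix.single ⟨S.tgt e.1, e.2.1⟩ ⟨S.src e.1, e.2.2⟩ 1
  let b : E2 → ℕ := fun e => S.b e.1
  have hb : ∀ e, 1 ≤ b e := by
    intro e
    have h1 := (hG0 _).1 e.2.1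
    have h2 := (hG0 _).1 e.2.2
    exact (edge_facts S hu e.1 h1.1 h2.2.1).1
  have hnil : IsNilpotent (∑ e ∈ univ.filter (fun e => b e = 1), c e) := by
    refine nilp _ fun q hq => ?_
    have h1 : ∀ i j : Q2, (∑ e ∈ univ.filter (fun e => b e = 1), c e) i j ≠ 0 →
        ∃ e : S.E, S.b e = 1 ∧ S.tgt e = i.1 ∧ S.src e = j.1 := by
      intro i j hij
      rw [Matrix.sum_apply] at hij
      obtain ⟨e, he, hne⟩ := Finset.exists_ne_zero_of_sum_ne_zero hij
      refine ⟨e.1, (Finset.mem_filter.1 he).2, ?_⟩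
      by_contra hcon
      apply hne
      have : ¬ ((⟨S.tgt e.1, e.2.1⟩ : Q2) = i ∧ (⟨S.src e.1, e.2.2⟩ : Q2) = j) := by
        rintro ⟨h1, h2⟩
        exact hcon ⟨congrArg Subtype.val h1, congrArg Subtype.val h2⟩
      exact Matrix.single_apply_of_ne _ _ _ _ _ this
    have h2 : Relation.TransGen (fun i j : S.Q => ∃ e : S.E, S.b e = 1 ∧ S.tgt e = i ∧ S.src e = j) q.1 q.1 :=
      Relation.TransGen.lift (p := fun i j : S.Q => ∃ e : S.E, S.b e = 1 ∧ S.tgt e = i ∧ S.src e = j)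
        (fun x : Q2 => x.1) (fun i j hij => h1 i j hij) _ _ hq
    obtain ⟨w, hw1, hw2, hw3⟩ := walk _ (fun i j h => h) h2
    have h3 := (hG0 _).1 q.2
    exact h3.2.2 ⟨w, hw1, hw2, hw3⟩
  obtain ⟨hDan, hDne⟩ := det_ne b hb c hnil
  -- the equations
  have heq : ∀ q : Q2, ∃ H : ℂ → ℂ, AnalyticAt ℂ H 1 ∧ ∀ s : ℝ, 1 < s →
      ((s : ℂ) - 1) * (Dir S q.1 s - ∑ j : Q2, (∑ e, ((b e : ℂ) ^ (-(s : ℂ))) • c e) q j * Dir S j.1 s) = H s := by
    intro q
    have hq := (hG0 _).1 q.2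
    obtain ⟨H0, hH0, hD⟩ := decomp S hu hq.1 hq.2.1
    have h1 : ∀ e : S.E, ∃ H : ℂ → ℂ, AnalyticAt ℂ H 1 ∧ ∀ s : ℝ, 1 < s → S.tgt e = q.1 ∧ (X S (S.src e)).Infinite →
        ¬ Good (S.src e) → ((s : ℂ) - 1) * ((S.b e : ℂ) ^ (-(s : ℂ)) * Dir S (S.src e) s) = H s := by
      intro e
      by_cases h : (S.tgt e = q.1 ∧ (X S (S.src e)).Infinite) ∧ ¬ Good (S.src e)
      · have h2 := edge_facts S hu e (by rw [h.1.1]; exact hq.1) h.1.2
        have h3 : Cyc S (S.src e) := by
          by_contra hc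
          exact h.2 ((hG0 _).2 ⟨h2.2.1, h.1.2, hc⟩)
        obtain ⟨H, hH, hH'⟩ := hcyc _ h2.2.1 h.1.2 h3
        refine ⟨fun s => (S.b e : ℂ) ^ (-s) * H s, ?_, fun s hs _ _ => ?_⟩
        · have hb0 : (S.b e : ℂ) ≠ 0 := by
            have := h2.1
            exact_mod_cast (by omega : S.b e ≠ 0)
          have hd : Differentiable ℂ fun s : ℂ => (S.b e : ℂ) ^ (-s) := by
            intro s
            exact (differentiableAt_id.neg).const_cpow (Or.inl hb0)
          exact (hd.analyticAt 1).mul hH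
        · show _ = (S.b e : ℂ) ^ (-(s : ℂ)) * H s
          rw [← hH' s hs]
          ring
      · refine ⟨fun _ => 0, analyticAt_const, fun s _ h1 h2 => absurd ⟨h1, h2⟩ h⟩
    choose G hG hG' using h1
    refine ⟨fun s => ∑ e ∈ univ.filter (fun e => (S.tgt e = q.1 ∧ (X S (S.src e)).Infinite) ∧ ¬ Good (S.src e)),
      G e s + (s - 1) * H0 s, ?_, fun s hs => ?_⟩
    · refine (Finset.analyticAt_fun_sum _ fun e _ => hG e).add ?_
      exact (analyticAt_id.sub analyticAt_const).mul hH0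
    · show _ = (∑ e ∈ univ.filter (fun e => (S.tgt e = q.1 ∧ (X S (S.src e)).Infinite) ∧ ¬ Good (S.src e)),
        G e s) + ((s : ℂ) - 1) * H0 s
      rw [hD s hs]
      have h2 : ∑ j : Q2, (∑ e, ((b e : ℂ) ^ (-(s : ℂ))) • c e) q j * Dir S j.1 s =
          ∑ e ∈ univ.filter (fun e => (S.tgt e = q.1 ∧ (X S (S.src e)).Infinite) ∧ Good (S.src e)),
            (S.b e : ℂ) ^ (-(s : ℂ)) * Dir S (S.src e) s := by
        have h3 : ∀ j : Q2, (∑ e, ((b e : ℂ) ^ (-(s : ℂ))) • c e) q j * Dir S j.1 s =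
            ∑ e : E2, (if S.tgt e.1 = q.1 ∧ S.src e.1 = j.1 then (S.b e.1 : ℂ) ^ (-(s : ℂ)) * Dir S j.1 s else 0) := by
          intro j
          rw [Matrix.sum_apply, Finset.sum_mul]
          refine Finset.sum_congr rfl fun e _ => ?_
          rw [Matrix.smul_apply]
          by_cases h : S.tgt e.1 = q.1 ∧ S.src e.1 = j.1
          · rw [if_pos h]
            have h4 : c e q j = 1 := by
              have h5 : (⟨S.tgt e.1, e.2.1⟩ : Q2) = q := Subtype.ext h.1
              have h6 : (⟨S.src e.1, e.2.2⟩ : Q2) = j := Subtype.ext h.2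
              show Matrix.single (⟨S.tgt e.1, e.2.1⟩ : Q2) (⟨S.src e.1, e.2.2⟩ : Q2) (1 : ℂ) q j = 1
              rw [h5, h6, Matrix.single_apply_same]
            rw [h4, smul_eq_mul, mul_one]
          · rw [if_neg h]
            have h4 : c e q j = 0 := by
              refine Matrix.single_apply_of_ne _ _ _ _ _ ?_
              rintro ⟨h1, h2⟩
              exact h ⟨congrArg Subtype.val h1, congrArg Subtype.val h2⟩
            rw [h4, smul_zero, zero_mul]
        rw [Finset.sum_congr rfl fun j _ => h3 j, Finset.sum_comm]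
        have h4 : ∀ e : E2, ∑ j : Q2, (if S.tgt e.1 = q.1 ∧ S.src e.1 = j.1 then
            (S.b e.1 : ℂ) ^ (-(s : ℂ)) * Dir S j.1 s else 0) =
            if S.tgt e.1 = q.1 then (S.b e.1 : ℂ) ^ (-(s : ℂ)) * Dir S (S.src e.1) s else 0 := by
          intro e
          rw [Finset.sum_eq_single (⟨S.src e.1, e.2.2⟩ : Q2)]
          · by_cases h : S.tgt e.1 = q.1
            · rw [if_pos ⟨h, rfl⟩, if_pos h]
            · rw [if_neg (fun h' => h h'.1), if_neg h]
          · intro j _ hj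
            rw [if_neg]
            rintro ⟨_, h2⟩
            exact hj (Subtype.ext h2.symm)
          · intro h
            exact absurd (Finset.mem_univ _) h
        rw [Finset.sum_congr rfl fun e _ => h4 e, ← Finset.sum_filter]
        refine Finset.sum_bij (fun e _ => e.1) ?_ ?_ ?_ ?_
        · intro e he
          rw [Finset.mem_filter] at he ⊢
          have h5 := (hG0 _).1 e.2.2
          exact ⟨Finset.mem_univ _, ⟨he.2, h5.2.1⟩, e.2.2⟩
        · intro e1 _ e2 _ h
          exact Subtype.ext h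
        · intro e he
          rw [Finset.mem_filter] at he
          refine ⟨⟨e, ?_, he.2.2⟩, ?_, rfl⟩
          · rw [he.2.1.1]
            exact q.2
          · rw [Finset.mem_filter]
            exact ⟨Finset.mem_univ _, he.2.1.1⟩
        · intro e _
          rfl
      rw [h2]
      have h5 := Finset.sum_filter_add_sum_filter_not (univ.filter (fun e => S.tgt e = q.1 ∧ (X S (S.src e)).Infinite))
        (fun e => Good (S.src e)) (fun e => (S.b e : ℂ) ^ (-(s : ℂ)) * Dir S (S.src e) s)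
      rw [Finset.filter_filter, Finset.filter_filter] at h5
      rw [← h5]
      have h6 : ((s : ℂ) - 1) * ∑ e ∈ univ.filter (fun e => (S.tgt e = q.1 ∧ (X S (S.src e)).Infinite) ∧ ¬ Good (S.src e)),
          (S.b e : ℂ) ^ (-(s : ℂ)) * Dir S (S.src e) s =
          ∑ e ∈ univ.filter (fun e => (S.tgt e = q.1 ∧ (X S (S.src e)).Infinite) ∧ ¬ Good (S.src e)), G e s := by
        rw [Finset.mul_sum]
        refine Finset.sum_congr rfl fun e he => ?_
        rw [Finset.mem_filter] at he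
        exact hG' e s hs he.2.1 he.2.2
      rw [← h6]
      ring
  choose H hH hH' using heq
  have hMan : ∀ i j : Q2, AnalyticAt ℂ (fun s : ℂ => (∑ e, ((b e : ℂ) ^ (-s)) • c e) i j) 1 := by
    intro i j
    have h1 : (fun s : ℂ => (∑ e, ((b e : ℂ) ^ (-s)) • c e) i j) = fun s : ℂ => ∑ e, ((b e : ℂ) ^ (-s)) * c e i j := by
      funext s
      rw [Matrix.sum_apply]
      rfl
    rw [h1]
    refine Finset.analyticAt_fun_sum _ fun e _ => ?_
    have hb0 : (b e : ℂ) ≠ 0 := by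
      have := hb e
      exact_mod_cast (by omega : b e ≠ 0)
    have hd : Differentiable ℂ fun s : ℂ => (b e : ℂ) ^ (-s) := by
      intro s
      exact (differentiableAt_id.neg).const_cpow (Or.inl hb0)
    exact (hd.analyticAt 1).mul analyticAt_const
  have hsol := solve (fun s : ℂ => ∑ e, ((b e : ℂ) ^ (-s)) • c e) hMan (fun q s => Dir S q.1 s) H hH
    (fun s hs q => hH' q s hs)
  obtain ⟨D, hD⟩ : ∃ D : ℂ → ℂ, D = fun s : ℂ => (1 - ∑ e, ((b e : ℂ) ^ (-s)) • c e : Matrix Q2 Q2 ℂ).det := ⟨_, rfl⟩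
  have hDan' : AnalyticAt ℂ D 1 := by
    rw [hD]
    exact hDan
  have hDne' : ∀ᶠ s : ℝ in 𝓝[>] (1 : ℝ), D s ≠ 0 := by
    rw [hD]
    exact hDne
  -- all final states
  have hfin : ∀ q : S.Q, ∃ K : ℂ → ℂ, AnalyticAt ℂ K 1 ∧ ∀ s : ℝ, 1 < s → q ∈ S.fin →
      D s * (((s : ℂ) - 1) * Dir S q s) = K s := by
    intro q
    by_cases hq : q ∈ S.fin
    · have hl : Live S q := ⟨q, hq, [], Path.nil _⟩
      by_cases hi : (X S q).Infinite
      · by_cases hc : Cyc S q
        · obtain ⟨K, hK, hK'⟩ := hcyc q hl hi hc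
          exact ⟨fun s => D s * K s, hDan'.mul hK, fun s hs _ => by
            show _ = D s * K s
            rw [hK' s hs]⟩
        · have hg : Good q := (hG0 _).2 ⟨hl, hi, hc⟩
          obtain ⟨K, hK, hK'⟩ := hsol ⟨q, hg⟩
          refine ⟨K, hK, fun s hs _ => ?_⟩
          rw [hD]
          exact hK' s hs
      · obtain ⟨K, hK, hK'⟩ := dir_finite S (Set.not_infinite.1 hi)
        refine ⟨fun s => D s * ((s - 1) * K s), hDan'.mul ((analyticAt_id.sub analyticAt_const).mul hK), fun s hs _ => ?_⟩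
        show _ = D s * (((s : ℂ) - 1) * K s)
        rw [hK' s hs]
    · exact ⟨fun _ => 0, analyticAt_const, fun s _ h => absurd h hq⟩
  choose K hK hK' using hfin
  obtain ⟨Z, hZ, hZ'⟩ := comp_sum
  refine contra PS prime_facts.1 prime_facts.2 (fun s => D s * (s - 1))
    (fun s => D s * Z s - ∑ q ∈ univ.filter (fun q => q ∈ S.fin), K q s) ?_ ?_ ?_ ?_
  · exact hDan'.mul (analyticAt_id.sub analyticAt_const)
  · exact (hDan'.mul hZ).sub (Finset.analyticAt_fun_sum _ fun q _ => hK q)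
  · filter_upwards [hDne', self_mem_nhdsWithin] with s h1 h2
    refine mul_ne_zero h1 ?_
    have h3 : (1 : ℝ) < s := h2
    rw [sub_ne_zero]
    exact_mod_cast h3.ne'
  · filter_upwards [self_mem_nhdsWithin] with s h2
    have h3 : (1 : ℝ) < s := h2
    have h4 : ∑ q ∈ univ.filter (fun q => q ∈ S.fin), K q s = D s * (((s : ℂ) - 1) * DirN (Vals S) s) := by
      rw [vals_sum S hu s h3, Finset.mul_sum, Finset.mul_sum]
      refine Finset.sum_congr rfl fun q hq => ?_
      exact (hK' q s h3 (Finset.mem_filter.1 hq).2).symm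
    show (D s * ((s : ℂ) - 1)) * _ = D s * Z s - ∑ q ∈ univ.filter (fun q => q ∈ S.fin), K q s
    rw [h4, hv, hZ' s h3]
    ring

end Pool.Agent.Lib.UCX
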