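import Pool.Agent.Lib.UCX.Ins

/-!
# UCX, row Swp: all copies are equal

PROOF IN WORDS. `ctx_down`: `g' m = g (Prd.pop B f α :: (List.replicate (nvar α) m).flatten)`, `β' = β nvar α`,
`δ' = β nzero α + δ` (`fill` with `ms = replicate (nvar α) (m, n)`, then `Run.pop`, `List.append_nil`); injective: `g` is, and
`m ↦ (replicate k m).flatten`, `k ≥ 1`, is injective (equal lengths `k |m| = k |m'|`, then `m` is the prefix of that
length, `List.append_inj`). `same`: with `k = nvar α ≥ 2` let `R = replicate (k - 2) (m1, n1)`; `fill` for
`ms = (m1, n1) :: (m2, n2) :: R` and for `(m2, n2) :: (m1, n1) :: R` gives two derivations from `(B, f :: σ)` with the same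
`n`, so, with the context, two derivations from the start with the same `n`; by `hu` and the injectivity of `g` they are
equal: `m1 ++ (m2 ++ r) = m2 ++ (m1 ++ r)`. So one of `m1`, `m2` is a prefix of the other (`List.append_eq_append_iff`), and
`run_prefix` gives `n1 = n2`.
-/

set_option autoImplicit false

namespace Pool.Agent.Lib.UCX

private theorem flat_inj {β : Type} {k : ℕ} (hk : 1 ≤ k) {m m' : List β}
    (h : (List.replicate k m).flatten = (List.replicate k m').flatten) : m = m' := by
  have hl := congrArg List.length h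
  rw [List.length_flatten, List.length_flatten, List.map_replicate, List.map_replicate,
    List.sum_replicate, List.sum_replicate, smul_eq_mul, smul_eq_mul] at hl
  have hlen : m.length = m'.length := Nat.eq_of_mul_eq_mul_left (by omega) hl
  obtain ⟨j, rfl⟩ : ∃ j, k = j + 1 := ⟨k - 1, by omega⟩
  rw [List.replicate_succ, List.replicate_succ, List.flatten_cons, List.flatten_cons] at h
  exact (List.append_inj h hlen).1

theorem ctx_down {G : Grammar} {B : G.V} {f : G.I} {α : List (Sym G.V)} {C : G.V} {σ : List G.I}
    (hpop : (B, f, α) ∈ G.pop) (hα : ∀ s ∈ α, s = Sym.zero ∨ s = Sym.var C) (hv : 1 ≤ nvar α)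
    (h : Ctx G B (f :: σ)) : Ctx G C σ := by
  obtain ⟨g, β, δ, hg, hrun⟩ := h
  refine ⟨fun m => g (Prd.pop B f α :: (List.replicate (nvar α) m).flatten), β * nvar α,
    β * nzero α + δ, ?_, ?_⟩
  · intro m m' hm
    have h1 := hg hm
    rw [List.cons.injEq] at h1
    exact flat_inj hv h1.2
  · intro m n hm
    have h1 := fill σ C α hα (List.replicate (nvar α) (m, n)) (by rw [List.length_replicate])
      (fun x hx => by
        have hx' := List.eq_of_mem_replicate hx
        rw [hx']
        exact hm)
    rw [List.map_replicate, List.map_replicate, List.sum_replicate, smul_eq_mul] at h1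
    have h2 : Run G (Prd.pop B f α :: (List.replicate (nvar α) m).flatten) [some (B, f :: σ)]
        (nvar α * n + nzero α) :=
      Run.pop hpop (by rw [List.append_nil]; exact h1)
    have h3 := hrun _ _ h2
    have e : β * (nvar α * n + nzero α) + δ = β * nvar α * n + (β * nzero α + δ) := by ring
    rw [e] at h3
    exact h3

theorem same {G : Grammar} (hu : Unambiguous G) {B : G.V} {f : G.I} {α : List (Sym G.V)} {C : G.V}
    {σ : List G.I} (hpop : (B, f, α) ∈ G.pop) (hα : ∀ s ∈ α, s = Sym.zero ∨ s = Sym.var C)
    (hv : 2 ≤ nvar α) (h : Ctx G B (f :: σ)) {m1 m2 : List (Prd G)} {n1 n2 : ℕ}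
    (h1 : Run G m1 [some (C, σ)] n1) (h2 : Run G m2 [some (C, σ)] n2) : n1 = n2 := by
  obtain ⟨g, β, δ, hg, hrun⟩ := h
  have key : ∀ ms : List (List (Prd G) × ℕ), ms.length = nvar α →
      (∀ x ∈ ms, Run G x.1 [some (C, σ)] x.2) →
      Run G (g (Prd.pop B f α :: (ms.map Prod.fst).flatten)) [some (G.start, [])]
        (β * ((ms.map Prod.snd).sum + nzero α) + δ) := by
    intro ms hl hms
    exact hrun _ _ (Run.pop hpop (by rw [List.append_nil]; exact fill σ C α hα ms hl hms))
  have ka := key ((m1, n1) :: (m2, n2) :: List.replicate (nvar α - 2) (m1, n1))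
    (by simp only [List.length_cons, List.length_replicate]; omega)
    (by
      intro x hx
      rw [List.mem_cons, List.mem_cons] at hx
      rcases hx with rfl | rfl | hx
      · exact h1
      · exact h2
      · rw [List.eq_of_mem_replicate hx]
        exact h1)
  have kb := key ((m2, n2) :: (m1, n1) :: List.replicate (nvar α - 2) (m1, n1))
    (by simp only [List.length_cons, List.length_replicate]; omega)
    (by
      intro x hx
      rw [List.mem_cons, List.mem_cons] at hx
      rcases hx with rfl | rfl | hx
      · exact h2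
      · exact h1
      · rw [List.eq_of_mem_replicate hx]
        exact h1)
  have hsum : (((m2, n2) :: (m1, n1) :: List.replicate (nvar α - 2) (m1, n1)).map Prod.snd).sum =
      (((m1, n1) :: (m2, n2) :: List.replicate (nvar α - 2) (m1, n1)).map Prod.snd).sum := by
    simp only [List.map_cons, List.sum_cons]
    omega
  rw [hsum] at kb
  have h3 := hg (hu _ _ _ ka kb)
  rw [List.cons.injEq] at h3
  have h4 := h3.2
  simp only [List.map_cons, List.flatten_cons] at h4
  rcases List.append_eq_append_iff.1 h4 with ⟨t, ht, -⟩ | ⟨t, ht, -⟩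
  · rw [ht] at h2
    exact (run_prefix h1 h2).2.symm
  · rw [ht] at h1
    exact (run_prefix h2 h1).2

end Pool.Agent.Lib.UCX
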