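import Pool.Agent.Lib.UCX.Defs
import Pool.Agent.Lib.UCX.Dif

/-!
# UCX, row Zet: zeta and the composite numbers

PROOF IN WORDS. `zeta_mul`: for `s > 1` the sum is `riemannZeta s` (`zeta_eq_tsum_one_div_nat_add_one_cpow`). Take
`Z = Function.update (fun s => (s - 1) * riemannZeta s) 1 1`: differentiable on the punctured plane
(`differentiableAt_riemannZeta`), continuous at `1` (`riemannZeta_residue_one`), so differentiable at `1` too
(`Complex.differentiableOn_update_limUnder...` or `Complex.analyticAt_of_differentiable_on_punctured_nhds_of_continuousAt`).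
`comp_sum`: `ℕ` is the disjoint union of `{0}`, `{1}`, the primes and the composite numbers; for `s > 1` everything is
summable (`summable_cpow`), so the total sum is `1 + 2^(-s) + PS s + DirN Composite s`
(`(p + 1 : ℝ)^(-s)` cast to `ℂ`: `Complex.ofReal_cpow`; `Complex.ofReal_tsum`). So
`(s - 1) DirN = Z s - (s - 1) (1 + 2^(-s)) - (s - 1) PS s`.
-/

set_option autoImplicit false

open Filter Topology Finset

namespace Pool.Agent.Lib.UCX

theorem zeta_mul : ∃ Z : ℂ → ℂ, AnalyticAt ℂ Z 1 ∧ ∀ s : ℝ, 1 < s →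
    ((s : ℂ) - 1) * ∑' n : ℕ, ((n + 1 : ℕ) : ℂ) ^ (-(s : ℂ)) = Z s := by
  refine ⟨Function.update (fun s => (s - 1) * riemannZeta s) 1 1, ?_, ?_⟩
  · refine Complex.analyticAt_of_differentiable_on_punctured_nhds_of_continuousAt ?_ ?_
    · filter_upwards [self_mem_nhdsWithin] with z hz
      have hz1 : z ≠ 1 := hz
      have h1 : DifferentiableAt ℂ (fun s => (s - 1) * riemannZeta s) z :=
        (differentiableAt_id.sub_const 1).mul (differentiableAt_riemannZeta hz1)
      refine h1.congr_of_eventuallyEq ?_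
      filter_upwards [isOpen_ne.mem_nhds hz1] with w hw
      exact Function.update_of_ne hw _ _
    · rw [continuousAt_update_same]
      exact riemannZeta_residue_one
  · intro s hs
    have h1 : (s : ℂ) ≠ 1 := by
      intro h
      have h2 : s = 1 := by exact_mod_cast h
      linarith
    rw [Function.update_of_ne h1, zeta_eq_tsum_one_div_nat_add_one_cpow (by simpa using hs)]
    congr 1
    refine tsum_congr fun n => ?_
    rw [Complex.cpow_neg, one_div]
    push_cast
    rfl

private theorem ps_cast (s : ℝ) : (PS s : ℂ) = ∑' n : {n : ℕ | n.Prime}, (((n : ℕ) + 1 : ℕ) : ℂ) ^ (-(s : ℂ)) := by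
  unfold PS
  rw [Complex.ofReal_tsum]
  show ∑' p : Nat.Primes, _ = ∑' p : Nat.Primes, _
  refine tsum_congr fun p => ?_
  rw [Complex.ofReal_cpow (by positivity)]
  push_cast
  rfl

private theorem decomp (n : ℕ) (g : ℕ → ℂ) : g n = Set.indicator {n | Composite n} g n +
    (Set.indicator {n : ℕ | n.Prime} g n + Set.indicator {n : ℕ | n ≤ 1} g n) := by
  by_cases h1 : n ≤ 1
  · have e1 : n ∉ {n | Composite n} := fun h => by
      have : 2 ≤ n := h.1
      omega
    have e2 : n ∉ {n : ℕ | n.Prime} := fun h => by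
      have : 2 ≤ n := Nat.Prime.two_le h
      omega
    rw [Set.indicator_of_notMem e1, Set.indicator_of_notMem e2, Set.indicator_of_mem (show n ∈ {n : ℕ | n ≤ 1} from h1)]
    ring
  · have e3 : n ∉ {n : ℕ | n ≤ 1} := h1
    by_cases h2 : n.Prime
    · have e1 : n ∉ {n | Composite n} := fun h => h.2 h2
      rw [Set.indicator_of_notMem e1, Set.indicator_of_notMem e3, Set.indicator_of_mem (show n ∈ {n : ℕ | n.Prime} from h2)]
      ring
    · have e1 : n ∈ {n | Composite n} := ⟨by omega, h2⟩
      have e2 : n ∉ {n : ℕ | n.Prime} := h2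
      rw [Set.indicator_of_mem e1, Set.indicator_of_notMem e2, Set.indicator_of_notMem e3]
      ring

private theorem small_sum (g : ℕ → ℂ) : ∑' n, Set.indicator {n : ℕ | n ≤ 1} g n = g 0 + g 1 := by
  rw [tsum_eq_sum (s := {0, 1})]
  · rw [Finset.sum_pair (by norm_num)]
    simp
  · intro n hn
    refine Set.indicator_of_notMem ?_ _
    intro h
    have h1 : n ≤ 1 := h
    simp only [Finset.mem_insert, Finset.mem_singleton, not_or] at hn
    omega

theorem comp_sum : ∃ Z : ℂ → ℂ, AnalyticAt ℂ Z 1 ∧ ∀ s : ℝ, 1 < s →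
    ((s : ℂ) - 1) * DirN {n | Composite n} s = Z s - ((s : ℂ) - 1) * (PS s : ℂ) := by
  obtain ⟨Z, hZ, hs⟩ := zeta_mul
  refine ⟨fun s => Z s - (s - 1) * (1 + (2 : ℂ) ^ (-s)), ?_, ?_⟩
  · have h1 : Differentiable ℂ (fun s : ℂ => (s - 1) * (1 + (2 : ℂ) ^ (-s))) := by
      refine (differentiable_id.sub_const 1).mul ?_
      refine (differentiable_const _).add ?_
      exact differentiable_id.neg.const_cpow (Or.inl two_ne_zero)
    exact hZ.sub (h1.analyticAt 1)
  · intro s h1
    have hsum : Summable fun n : ℕ => ((n + 1 : ℕ) : ℂ) ^ (-(s : ℂ)) :=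
      summable_cpow (fun n : ℕ => n) (fun _ _ h => h) h1
    set g : ℕ → ℂ := fun n => ((n + 1 : ℕ) : ℂ) ^ (-(s : ℂ)) with hg
    have e1 : DirN {n | Composite n} s = ∑' n, Set.indicator {n | Composite n} g n :=
      tsum_subtype {n | Composite n} g
    have e2 : (PS s : ℂ) = ∑' n, Set.indicator {n : ℕ | n.Prime} g n := by
      rw [ps_cast]
      exact tsum_subtype {n : ℕ | n.Prime} g
    have e3 : ∑' n, g n = ∑' n, Set.indicator {n | Composite n} g n +
        (∑' n, Set.indicator {n : ℕ | n.Prime} g n + ∑' n, Set.indicator {n : ℕ | n ≤ 1} g n) := by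
      rw [← Summable.tsum_add (hsum.indicator _) (hsum.indicator _),
        ← Summable.tsum_add (hsum.indicator _) ((hsum.indicator _).add (hsum.indicator _))]
      exact tsum_congr fun n => decomp n g
    rw [small_sum, ← e1, ← e2] at e3
    have e4 := hs s h1
    rw [e3] at e4
    have g0 : g 0 = 1 := by simp [hg]
    have g1 : g 1 = 2 ^ (-(s : ℂ)) := by
      simp only [hg]
      norm_num
    rw [g0, g1] at e4
    show _ = Z s - ((s : ℂ) - 1) * (1 + (2 : ℂ) ^ (-(s : ℂ))) - _
    rw [← e4]
    ring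

end Pool.Agent.Lib.UCX
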